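import Pool.Agent.Lib.MP_17a322_nt.VA.A3b
import Pool.Agent.Lib.MP_17a322_nt.FU.Defs
import Pool.Agent.Lib.MP_17a322_ntEA.Defs

/-!
Curves in the product of two elliptic curves: definitions.
-/

universe u

namespace MPFA

open Pool.Agent.Lib.MP_17a322_nt.VA Pool.Agent.Lib.MP_17a322_nt.EA

/-- The product of the curves `y² = x³ + a x + b` and `y² = x³ + a' x + b'` as an abelian variety in `ℙ⁸`
(the data of `exists_two`). -/
structure EE {K : Type u} [Field K] (a b a' b' : K) where
  /-- the abelian variety -/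
  A : AV K 8
  /-- its points over `L` are the pairs of points of the two curves over `L` -/
  e : ∀ (L : Type u) [Field L] [Algebra K L], EP a b L × EP a' b' L ≃+ A.Pts L
  rep : ∀ (L : Type u) [Field L] [Algebra K L] (P : EP a b L × EP a' b' L), ∃ c : L, c ≠ 0 ∧
    ∀ k, A.x (e L P) k = c * sg (N := 2) (M := 2) (co P.1) (co P.2) k

/-- The set of the pairs of points `(v, v')` with `x(v') = α x(v) + β`, and of the pair `(O, O')`. -/
def Rel {K : Type u} [Field K] {a b a' b' : K} (α β : K) {L : Type u} [Field L] [Algebra K L]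
    (P : EP a b L × EP a' b' L) : Prop :=
  (P.1 = 0 ∧ P.2 = 0) ∨
    (P.1 ≠ 0 ∧ P.2 ≠ 0 ∧ co P.2 0 = algebraMap K L α * co P.1 0 + algebraMap K L β)

/-- The coordinates of the point are algebraic over `K`. -/
def Alg {K : Type u} [Field K] {a b : K} {L : Type u} [Field L] [Algebra K L] (v : EP a b L) : Prop :=
  ∀ i, IsAlgebraic K (co v i)

end MPFA
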