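import Pool.Agent.Lib.MP_10e784_agFA.Defs

/-!
Leaf L0: coordinates of the points of `y² = x³ + a x + b`.

PROOF. `EP a b L` is Mathlib's `WeierstrassCurve.Affine.Point` of `(crv a b).baseChange L`, whose coefficients are
`a₁ = a₂ = a₃ = 0`, `a₄ = algebraMap a`, `a₆ = algebraMap b`; `0 = .zero`. Cases on the points; `Affine.equation_iff`,
`Affine.nonsingular_iff`, `Affine.negY`, `Point.neg_some`, `Point.add_of_Y_eq`, `Point.add_self_of_Y_ne` (its value is a
`.some`, not `0`), `Point.X_eq_iff`. For `exists_pt`: `Δ = -16 (4 a³ + 27 b²)`, if `Δ ≠ 0` every point on the curve is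
nonsingular (`WeierstrassCurve.Affine.equation_iff_nonsingular_of_Δ_ne_zero` or the like). For `two`: a point with
`y = 0` is its own negative; conversely `v + v = 0` gives `v = -v`, `y = -y`, and `2 ≠ 0`.
-/

universe u

namespace MPFA

open Pool.Agent.Lib.MP_17a322_nt.VA Pool.Agent.Lib.MP_17a322_nt.EA

section

variable {K : Type u} [Field K] {a b : K} {L : Type u} [Field L] [Algebra K L]

private theorem L0_eqn (x y : L) : ((crv a b).baseChange L).toAffine.Equation x y ↔
    y ^ 2 = x ^ 3 + algebraMap K L a * x + algebraMap K L b := by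
  rw [WeierstrassCurve.Affine.equation_iff]
  simp [WeierstrassCurve.baseChange, crv]

theorem co_zero : co (0 : EP a b L) = ![0, 1, 0] := rfl

theorem co_two {v : EP a b L} (h : v ≠ 0) : co v 2 = 1 := by
  rcases v with _ | ⟨x, y, hxy⟩
  · exact absurd rfl h
  · rfl

theorem co_inj {v w : EP a b L} (h : ∀ i, co v i = co w i) : v = w := by
  rcases v with _ | ⟨x, y, hxy⟩
  · rcases w with _ | ⟨x', y', hxy'⟩
    · rfl
    · have h2 : (0 : L) = 1 := h 2
      exact absurd h2 zero_ne_one
  · rcases w with _ | ⟨x', y', hxy'⟩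
    · have h2 : (1 : L) = 0 := h 2
      exact absurd h2 one_ne_zero
    · have h0 : x = x' := h 0
      have h1 : y = y' := h 1
      subst h0
      subst h1
      rfl

theorem co_eqn {v : EP a b L} (h : v ≠ 0) :
    co v 1 ^ 2 = co v 0 ^ 3 + algebraMap K L a * co v 0 + algebraMap K L b := by
  rcases v with _ | ⟨x, y, hxy⟩
  · exact absurd rfl h
  · show y ^ 2 = x ^ 3 + algebraMap K L a * x + algebraMap K L b
    exact (L0_eqn x y).1 hxy.1

theorem exists_pt (hΔ : (crv a b).Δ ≠ 0) {x y : L} (h : y ^ 2 = x ^ 3 + algebraMap K L a * x + algebraMap K L b) :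
    ∃ v : EP a b L, v ≠ 0 ∧ co v 0 = x ∧ co v 1 = y := by
  have hΔ' : ((crv a b).baseChange L).toAffine.Δ ≠ 0 := by
    show ((crv a b).baseChange L).Δ ≠ 0
    rw [WeierstrassCurve.baseChange, WeierstrassCurve.map_Δ]
    exact (map_ne_zero _).2 hΔ
  have h1 : ((crv a b).baseChange L).toAffine.Equation x y := (L0_eqn x y).2 h
  have h2 : ((crv a b).baseChange L).toAffine.Nonsingular x y :=
    (WeierstrassCurve.Affine.equation_iff_nonsingular_of_Δ_ne_zero hΔ').1 h1
  exact ⟨.some x y h2, WeierstrassCurve.Affine.Point.some_ne_zero h2, rfl, rfl⟩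

theorem co_neg (v : EP a b L) : co (-v) 0 = co v 0 := by
  rcases v with _ | ⟨x, y, hxy⟩
  · rfl
  · rfl

theorem eq_or_neg {v w : EP a b L} (hv : v ≠ 0) (hw : w ≠ 0) (h : co v 0 = co w 0) : w = v ∨ w = -v := by
  rcases v with _ | ⟨x, y, hxy⟩
  · exact absurd rfl hv
  · rcases w with _ | ⟨x', y', hxy'⟩
    · exact absurd rfl hw
    · have h0 : x' = x := h.symm
      exact WeierstrassCurve.Affine.Point.X_eq_iff.1 h0

theorem two (h2 : (2 : L) ≠ 0) {v : EP a b L} (hv : v ≠ 0) : v + v = 0 ↔ co v 1 = 0 := by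
  rw [add_eq_zero_iff_eq_neg]
  rcases v with _ | ⟨x, y, hxy⟩
  · exact absurd rfl hv
  · have hneg : ((crv a b).baseChange L).toAffine.negY x y = -y := by
      simp [WeierstrassCurve.Affine.negY, WeierstrassCurve.baseChange, crv]
    show _ ↔ y = 0
    constructor
    · intro h
      have h1 : y = ((crv a b).baseChange L).toAffine.negY x y := congrFun (congrArg co h) 1
      rw [hneg] at h1
      have h3 : 2 * y = 0 := by linear_combination h1
      exact (mul_eq_zero.1 h3).resolve_left h2
    · intro h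
      subst h
      refine co_inj fun i => ?_
      have h3 : co (-(WeierstrassCurve.Affine.Point.some x 0 hxy : EP a b L)) =
          ![x, ((crv a b).baseChange L).toAffine.negY x 0, 1] := rfl
      rw [h3, hneg, neg_zero]
      rfl

end

end MPFA
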