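import Pool.Agent.Lib.MP_10e784_agFA.L0

/-!
Leaf L1: Segre coordinates.

`sg x y k = x i * y j` for `k = pe 2 2 (i, j)`, so a statement for all `k` is a statement for all pairs `(i, j)`.

PROOF of `sg_prop`: choose `j` with `w j ≠ 0`; from `u i * u' j = c * (v i * w j)` for this `j` and all `i` one gets
`v i = d * u i`, `d = u' j / (c * w j)`, and `d ≠ 0` because `v ≠ 0`. In the same way the second statement.

PROOF of `co_of_prop`: `co P` is `(x, y, 1)` or `(0, 1, 0)`. If `u = d * co v` and `u = co w` with `d ≠ 0` (coordinates in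
two fields are not needed here) then comparing the third coordinates (`0` or `1`) and then the second ones gives `d = 1`.

PROOF of `img_fst`, `img_snd`: `E.A.img φ (E.e L P)` has the representative `φ (E.A.x (E.e L P) k)` (`AV.img_rep`,
`AV.Rep`), which is a nonzero multiple of `sg (φ ∘ co P.1) (φ ∘ co P.2)`; on the other hand with
`Q = (E.e L').symm (E.A.img φ (E.e L P))` the coordinates of `E.A.img φ (E.e L P) = E.e L' Q` are a nonzero multiple of
`sg (co Q.1) (co Q.2)`. By `sg_prop` the vectors `φ ∘ co P.1` and `co Q.1` are proportional, and both are of the form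
`(x, y, 1)` or `(0, 1, 0)`, so they are equal.
-/

universe u

namespace MPFA

open Pool.Agent.Lib.MP_17a322_nt.VA Pool.Agent.Lib.MP_17a322_nt.EA

private theorem L1_pair {L : Type u} [Field L] {u u' v w : Fin (2 + 1) → L} {c : L}
    (h : ∀ k, sg (N := 2) (M := 2) u u' k = c * sg (N := 2) (M := 2) v w k) (i j : Fin (2 + 1)) :
    u i * u' j = c * (v i * w j) := by
  have h1 := h (pe 2 2 (i, j))
  unfold sg at h1
  rw [Equiv.symm_apply_apply] at h1
  exact h1

theorem sg_prop {L : Type u} [Field L] {u u' v w : Fin (2 + 1) → L} {c : L} (hc : c ≠ 0) (hv : v ≠ 0) (hw : w ≠ 0)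
    (h : ∀ k, sg (N := 2) (M := 2) u u' k = c * sg (N := 2) (M := 2) v w k) :
    (∃ d : L, d ≠ 0 ∧ ∀ i, u i = d * v i) ∧ ∃ d : L, d ≠ 0 ∧ ∀ i, u' i = d * w i := by
  obtain ⟨j₀, hj⟩ := Function.ne_iff.1 hw
  obtain ⟨i₀, hi⟩ := Function.ne_iff.1 hv
  rw [Pi.zero_apply] at hj hi
  have h1 := L1_pair h
  have h2 : u i₀ * u' j₀ ≠ 0 := by
    rw [h1]
    exact mul_ne_zero hc (mul_ne_zero hi hj)
  have hu := left_ne_zero_of_mul h2
  have hu' := right_ne_zero_of_mul h2
  refine ⟨⟨c * w j₀ / u' j₀, div_ne_zero (mul_ne_zero hc hj) hu', fun i => ?_⟩,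
    ⟨c * v i₀ / u i₀, div_ne_zero (mul_ne_zero hc hi) hu, fun j => ?_⟩⟩
  · have h3 := h1 i j₀
    field_simp
    linear_combination h3
  · have h3 := h1 i₀ j
    field_simp
    linear_combination h3

private theorem L1_co_ne {K : Type u} [Field K] {a b : K} {L : Type u} [Field L] [Algebra K L] (v : EP a b L) :
    co v ≠ 0 := by
  intro h
  by_cases hv : v = 0
  · have h1 := congrFun h 1
    rw [hv, co_zero] at h1
    exact one_ne_zero h1
  · have h1 := congrFun h 2
    rw [co_two hv] at h1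
    exact one_ne_zero h1

private theorem L1_co_prop {K : Type u} [Field K] {a b : K} {L L' : Type u} [Field L] [Algebra K L] [Field L']
    [Algebra K L'] (φ : L →ₐ[K] L') (v : EP a b L) (w : EP a b L') {d : L'} (hd : d ≠ 0)
    (h : ∀ i, φ (co v i) = d * co w i) (i : Fin (2 + 1)) : co w i = φ (co v i) := by
  have h2 := h 2
  by_cases hv : v = 0
  · have hw : w = 0 := by
      by_contra hw
      rw [co_two hw, hv, co_zero] at h2
      have h3 : φ 0 = d * 1 := h2
      rw [map_zero, mul_one] at h3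
      exact hd h3.symm
    have h1 := h 1
    rw [hv, hw, co_zero, co_zero] at h1
    have h3 : φ 1 = d * 1 := h1
    rw [map_one, mul_one] at h3
    rw [h i, ← h3, one_mul]
  · rw [co_two hv, map_one] at h2
    have hw : w ≠ 0 := by
      intro hw
      rw [hw, co_zero] at h2
      have h3 : (1 : L') = d * 0 := h2
      rw [mul_zero] at h3
      exact one_ne_zero h3
    rw [co_two hw, mul_one] at h2
    rw [h i, ← h2, one_mul]

section

variable {K : Type u} [Field K] {a b a' b' : K} (E : EE a b a' b')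

private theorem L1_of_rep {L : Type u} [Field L] [Algebra K L] {Q : E.A.Pts L} {u u' : Fin (2 + 1) → L}
    (h : E.A.Rep Q fun k => sg (N := 2) (M := 2) u u' k) :
    (∃ d : L, d ≠ 0 ∧ ∀ i, u i = d * co ((E.e L).symm Q).1 i) ∧
      ∃ d : L, d ≠ 0 ∧ ∀ i, u' i = d * co ((E.e L).symm Q).2 i := by
  obtain ⟨c, hc, h1⟩ := h
  obtain ⟨c', hc', h2⟩ := E.rep L ((E.e L).symm Q)
  refine sg_prop (mul_ne_zero hc hc') (L1_co_ne _) (L1_co_ne _) fun k => ?_
  have h3 := h2 k
  rw [AddEquiv.apply_symm_apply] at h3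
  rw [mul_assoc, ← h3]
  exact h1 k

private theorem L1_rep {L : Type u} [Field L] [Algebra K L] (P : EP a b L × EP a' b' L) :
    E.A.Rep (E.e L P) fun k => sg (N := 2) (M := 2) (co P.1) (co P.2) k := by
  obtain ⟨c, hc, h1⟩ := E.rep L P
  refine ⟨c⁻¹, inv_ne_zero hc, fun k => ?_⟩
  rw [h1 k, ← mul_assoc, inv_mul_cancel₀ hc, one_mul]

private theorem L1_img {L L' : Type u} [Field L] [Algebra K L] [Field L'] [Algebra K L'] (φ : L →ₐ[K] L')
    (P : EP a b L × EP a' b' L) :
    E.A.Rep (E.A.img φ (E.e L P)) fun k =>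
      sg (N := 2) (M := 2) (fun i => φ (co P.1 i)) (fun i => φ (co P.2 i)) k := by
  have h1 := (L1_rep E P).img φ
  have h2 : (fun k => φ (sg (N := 2) (M := 2) (co P.1) (co P.2) k)) = fun k =>
      sg (N := 2) (M := 2) (fun i => φ (co P.1 i)) (fun i => φ (co P.2 i)) k := by
    funext k
    unfold sg
    rw [map_mul]
  rw [h2] at h1
  exact h1

/-- A point with the coordinates `u i * u' j`. -/
theorem fst_of_rep {L : Type u} [Field L] [Algebra K L] {Q : E.A.Pts L} {u u' : Fin (2 + 1) → L}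
    (h : E.A.Rep Q fun k => sg (N := 2) (M := 2) u u' k) :
    ∃ d : L, d ≠ 0 ∧ ∀ i, u i = d * co ((E.e L).symm Q).1 i := by
  exact (L1_of_rep E h).1

theorem img_fst {L L' : Type u} [Field L] [Algebra K L] [Field L'] [Algebra K L'] (φ : L →ₐ[K] L')
    (P : EP a b L × EP a' b' L) (i : Fin (2 + 1)) :
    co ((E.e L').symm (E.A.img φ (E.e L P))).1 i = φ (co P.1 i) := by
  obtain ⟨d, hd, h⟩ := (L1_of_rep E (L1_img E φ P)).1
  exact L1_co_prop φ _ _ hd h i

theorem img_snd {L L' : Type u} [Field L] [Algebra K L] [Field L'] [Algebra K L'] (φ : L →ₐ[K] L')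
    (P : EP a b L × EP a' b' L) (i : Fin (2 + 1)) :
    co ((E.e L').symm (E.A.img φ (E.e L P))).2 i = φ (co P.2 i) := by
  obtain ⟨d, hd, h⟩ := (L1_of_rep E (L1_img E φ P)).2
  exact L1_co_prop φ _ _ hd h i

end

end MPFA
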