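import Pool.Agent.Lib.MP_17a322_nt.FU.Z1
import Pool.Agent.Lib.MP_17a322_ntMW.W6

/-!
Leaf L10: Faltings's theorem for closed subsets of `A` (from the library).

PROOF of `northcott`: choose for each point `P` of the set an index `j` with `A.x P j ≠ 0` (finitely many indices); the
ratios `A.x P i / A.x P j` have `logHeight₁` at most `logHeight (A.x P)`, so they are in a finite set (`Northcott.finite_le`
for `logHeight₁`), and the point is determined by `j` and the ratios (`AV.Rep.unique`, `AV.Rep.of_prop`). See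
`MP_17a322_nt/BI/Y8.lean` (Northcott's theorem for the points of projective space) and `VJ/MW3.lean`.

PROOF of `faltings`: apply `FU.final A ⊤ (MWA.MW A) g hg f hf ∅ 1 1 one_pos one_pos` with `M = 0`, `r = 1`, `g 0 = 1`
(`d = d' = 0`: the support of `1` is `{0}`), and the parameter `t = fun _ => 1`, `t ≠ 0`. If the set were infinite, by
`northcott` it has an element `P` with `C * (1 + logHeight t) ≤ logHeight (A.x P)`. The second alternative contradicts
`∀ j, aeval .. (f j) = 0`; in the first one `Bad` is impossible (`aeval .. 1 = 0`), so `Tr` holds for all `j`.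
-/

universe u

open MvPolynomial Height

namespace MPFA

open Pool.Agent.Lib.MP_17a322_nt.VA Pool.Agent.Lib.MP_17a322_nt.FU

theorem northcott {K : Type u} [Field K] [NumberField K] {N : ℕ} (A : AV K N) (C : ℝ) :
    {P : A.Pts K | logHeight (A.x P) ≤ C}.Finite :=
  MWA.W5 A C

theorem faltings {K : Type u} [Field K] [NumberField K] {N : ℕ} (A : AV K N) {D m : ℕ}
    (f : Fin m → MvPolynomial (Fin (N + 1) ⊕ Fin (0 + 1)) K)
    (hf : ∀ j, ∀ μ ∈ (f j).support, ∑ i, μ (Sum.inl i) = D ∧ ∑ l, μ (Sum.inr l) = 0)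
    (hinf : {P : A.Pts K | ∀ j, aeval (Sum.elim (A.x P) fun _ => (1 : K)) (f j) = 0}.Infinite) :
    ∃ (B : AV K N) (hB : IsSubAV B A) (P : A.Pts K), (∃ n, 0 < n ∧ B.dimIs n) ∧
      ∀ j, Tr hB P (fun _ => (1 : K)) (f j) := by
  classical
  have hg : ∀ j : Fin 1, ∀ μ ∈ ((fun _ : Fin 1 => (1 : MvPolynomial (Fin (N + 1) ⊕ Fin (0 + 1)) K)) j).support,
      ∑ i, μ (Sum.inl i) = 0 ∧ ∑ l, μ (Sum.inr l) = 0 := by
    intro j μ hμ
    have h1 : μ = 0 := by
      by_contra hne
      rw [mem_support_iff] at hμ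
      refine hμ ?_
      show coeff μ (1 : MvPolynomial (Fin (N + 1) ⊕ Fin (0 + 1)) K) = 0
      rw [coeff_one, if_neg (fun h => hne h.symm)]
    rw [h1]
    exact ⟨Finset.sum_eq_zero fun _ _ => rfl, Finset.sum_eq_zero fun _ _ => rfl⟩
  obtain ⟨C, k, B, hB, hdim, H⟩ := final A ⊤ (MWA.MW A) (fun _ : Fin 1 => 1) hg f hf ∅ 1 1 one_pos one_pos
  obtain ⟨t, ht⟩ : ∃ t : Fin (0 + 1) → K, t = fun _ => 1 := ⟨_, rfl⟩
  have ht0 : t ≠ 0 := by
    intro h
    have h1 := congrFun h 0
    rw [ht] at h1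
    exact one_ne_zero h1
  obtain ⟨P, hP, hPC⟩ := hinf.exists_notMem_finset (northcott A (C * (1 + logHeight t))).toFinset
  have hP0 : ∀ j, aeval (Sum.elim (A.x P) t) (f j) = 0 := by
    rw [ht]
    exact hP
  have hPh : C * (1 + logHeight t) ≤ logHeight (A.x P) := by
    rw [Set.Finite.mem_toFinset] at hPC
    exact (not_le.1 hPC).le
  rcases H t ht0 P (AddSubgroup.mem_top P) hPh with ⟨i, w, b, -, -, -, h | h⟩ | ⟨⟨j, hj⟩, -⟩
  · exact ⟨B i, hB i, P, hdim i, fun j => ht ▸ h j⟩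
  · obtain ⟨L, i1, i2, b, hb, -⟩ := h
    exact absurd ((map_one _).symm.trans (hb 0)) one_ne_zero
  · exact absurd (hP0 j) hj

end MPFA
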