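import Pool.Agent.Lib.MP_10e784_agFA.L0

/-!
Leaf L9: equations for the curve `Rel` in `ℙ⁸`.

PROOF. Let `z_ij` be the variable `X (Sum.inl (pe 2 2 (i, j)))`. The ten forms: `f₁ * z_k` for the nine variables `z_k`,
`f₁ = z_20 - α z_02 - β z_22` (so `f₁ = x' z - α x z' - β z z'`, the first index belongs to the first curve: `z_ij = X_i X'_j`,
`x = X_0, y = X_1, z = X_2`), and
`f₂ = z_21² - α³ z_12² - 3 α² β z_02² - (3 α β² + α a' - α³ a) z_02 z_22 - (β³ + a' β + b' - α³ b) z_22²`.
Homogeneous of degree 2 in the `Sum.inl` variables and free of `Sum.inr` variables: e.g. all of them are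
`rename Sum.inl` of a homogeneous polynomial of degree 2 (`IsHomogeneous`, `mem_support`, `support_rename_of_injective`).
Values at `z_ij = c X_i X'_j`: (i) `P.1, P.2 ≠ 0`: `X = (x, y, 1)`, `X' = (x', y', 1)`: `f₁ z_22 = c² (x' - α x - β)`, and if
`x' = α x + β` then `f₂ = c² (y'² - α³ y² - q(x)) = 0` with `q(X) = F'(α X + β) - α³ F(X)`. (ii) `P.1 = 0`, `P.2 ≠ 0`:
`X = (0, 1, 0)`, `f₂ = -α³ c² ≠ 0`, and `Rel` is false. (iii) `P.1 ≠ 0`, `P.2 = 0`: `X' = (0, 1, 0)`, `f₂ = c² ≠ 0`, and `Rel` is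
false. (iv) both `0`: all forms vanish, `Rel` is true.
-/

universe u

namespace MPFA

open MvPolynomial Pool.Agent.Lib.MP_17a322_nt.VA Pool.Agent.Lib.MP_17a322_nt.EA

private theorem L9_sum {K : Type u} [Field K] {σ : Type} [Fintype σ] {p : MvPolynomial σ K} (hp : p.IsHomogeneous 2)
    {μ : σ ⊕ Fin (0 + 1) →₀ ℕ} (hμ : μ ∈ (rename (Sum.inl : σ → σ ⊕ Fin (0 + 1)) p).support) :
    ∑ i, μ (Sum.inl i) = 2 ∧ ∑ l, μ (Sum.inr l) = 0 := by
  classical
  rw [support_rename_of_injective Sum.inl_injective, Finset.mem_image] at hμ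
  obtain ⟨ν, hν, rfl⟩ := hμ
  have h1 : ∑ i, ν i = 2 := by
    have h2 := hp (mem_support_iff.1 hν)
    rw [← Finsupp.degree_eq_sum]
    rw [Finsupp.degree_eq_weight_one]
    exact h2
  refine ⟨?_, ?_⟩
  · rw [← h1]
    exact Finset.sum_congr rfl fun i _ => Finsupp.mapDomain_apply Sum.inl_injective ν i
  · refine Finset.sum_eq_zero fun l _ => ?_
    refine Finsupp.mapDomain_of_notMem_range ν _ ?_
    rintro ⟨i, hi⟩
    exact Sum.inl_ne_inr hi

/-- The variable `z_ij`. -/
private noncomputable def L9_z (K : Type u) [Field K] (i j : Fin (2 + 1)) : MvPolynomial (Fin (8 + 1)) K :=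
  X (pe 2 2 (i, j))

private theorem L9_val {K L : Type u} [Field K] [Field L] [Algebra K L] (x x' : Fin (2 + 1) → L) (c : L)
    (i j : Fin (2 + 1)) :
    aeval (fun k => c * sg (N := 2) (M := 2) x x' k) (L9_z K i j) = c * (x i * x' j) := by
  unfold L9_z
  rw [aeval_X]
  unfold sg
  rw [Equiv.symm_apply_apply]

private theorem L9_hz {K : Type u} [Field K] (i j : Fin (2 + 1)) : (L9_z K i j).IsHomogeneous 1 :=
  isHomogeneous_X _ _

/-- The form `f₁`. -/
private noncomputable def L9_f1 {K : Type u} [Field K] (α β : K) : MvPolynomial (Fin (8 + 1)) K :=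
  L9_z K 2 0 - C α * L9_z K 0 2 - C β * L9_z K 2 2

/-- The form `f₂`. -/
private noncomputable def L9_f2 {K : Type u} [Field K] (a b a' b' α β : K) : MvPolynomial (Fin (8 + 1)) K :=
  L9_z K 2 1 ^ 2 - C (α ^ 3) * L9_z K 1 2 ^ 2 - C (3 * α ^ 2 * β) * L9_z K 0 2 ^ 2
    - C (3 * α * β ^ 2 + α * a' - α ^ 3 * a) * (L9_z K 0 2 * L9_z K 2 2)
    - C (β ^ 3 + a' * β + b' - α ^ 3 * b) * L9_z K 2 2 ^ 2

private theorem L9_h1 {K : Type u} [Field K] (α β : K) : (L9_f1 α β).IsHomogeneous 1 := by
  unfold L9_f1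
  refine ((L9_hz 2 0).sub ?_).sub ?_
  · exact (L9_hz 0 2).C_mul α
  · exact (L9_hz 2 2).C_mul β

private theorem L9_h2 {K : Type u} [Field K] (a b a' b' α β : K) : (L9_f2 a b a' b' α β).IsHomogeneous 2 := by
  unfold L9_f2
  have h : ∀ i j : Fin (2 + 1), (L9_z K i j ^ 2).IsHomogeneous 2 := fun i j => (L9_hz i j).pow 2
  refine ((((h 2 1).sub ?_).sub ?_).sub ?_).sub ?_
  · exact (h 1 2).C_mul _
  · exact (h 0 2).C_mul _
  · exact ((L9_hz 0 2).mul (L9_hz 2 2)).C_mul _
  · exact (h 2 2).C_mul _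

private theorem L9_v1 {K L : Type u} [Field K] [Field L] [Algebra K L] (α β : K) (x x' : Fin (2 + 1) → L) (c : L) :
    aeval (fun k => c * sg (N := 2) (M := 2) x x' k) (L9_f1 α β) =
      c * (x 2 * x' 0 - algebraMap K L α * (x 0 * x' 2) - algebraMap K L β * (x 2 * x' 2)) := by
  unfold L9_f1
  rw [map_sub, map_sub, map_mul, map_mul, L9_val, L9_val, L9_val, aeval_C, aeval_C]
  ring

private theorem L9_v2 {K L : Type u} [Field K] [Field L] [Algebra K L] (a b a' b' α β : K) (x x' : Fin (2 + 1) → L)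
    (c : L) :
    aeval (fun k => c * sg (N := 2) (M := 2) x x' k) (L9_f2 a b a' b' α β) =
      c ^ 2 * ((x 2 * x' 1) ^ 2 - algebraMap K L α ^ 3 * (x 1 * x' 2) ^ 2
        - 3 * algebraMap K L α ^ 2 * algebraMap K L β * (x 0 * x' 2) ^ 2
        - (3 * algebraMap K L α * algebraMap K L β ^ 2 + algebraMap K L α * algebraMap K L a'
            - algebraMap K L α ^ 3 * algebraMap K L a) * ((x 0 * x' 2) * (x 2 * x' 2))
        - (algebraMap K L β ^ 3 + algebraMap K L a' * algebraMap K L β + algebraMap K L b'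
            - algebraMap K L α ^ 3 * algebraMap K L b) * (x 2 * x' 2) ^ 2) := by
  unfold L9_f2
  simp only [map_sub, map_mul, map_pow, L9_val, aeval_C, map_add, map_ofNat]
  ring

theorem forms {K : Type u} [Field K] (a b a' b' α β : K) (hα : α ≠ 0) :
    ∃ (m : ℕ) (f : Fin m → MvPolynomial (Fin (8 + 1) ⊕ Fin (0 + 1)) K),
      (∀ j, ∀ μ ∈ (f j).support, ∑ i, μ (Sum.inl i) = 2 ∧ ∑ l, μ (Sum.inr l) = 0) ∧
      ∀ (L : Type u) [Field L] [Algebra K L] (P : EP a b L × EP a' b' L) (c : L) (t : Fin (0 + 1) → L), c ≠ 0 →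
        ((∀ j, aeval (Sum.elim (fun k => c * sg (N := 2) (M := 2) (co P.1) (co P.2) k) t) (f j) = 0) ↔ Rel α β P) := by
  refine ⟨9 + 1, fun j => rename Sum.inl
    ((Fin.cons (L9_f2 a b a' b' α β) (fun k : Fin 9 => L9_f1 α β * X k) : Fin (9 + 1) → MvPolynomial (Fin (8 + 1)) K) j),
    ?_, ?_⟩
  · intro j μ hμ
    refine L9_sum ?_ hμ
    refine Fin.cases ?_ (fun k => ?_) j
    · rw [Fin.cons_zero]
      exact L9_h2 a b a' b' α β
    · rw [Fin.cons_succ]
      exact (L9_h1 α β).mul (isHomogeneous_X K k)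
  · intro L _ _ P c t hc
    have hc2 : c ^ 2 ≠ 0 := pow_ne_zero 2 hc
    have hα' : algebraMap K L α ≠ 0 := (map_ne_zero (algebraMap K L)).2 hα
    have key : (∀ j, aeval (Sum.elim (fun k => c * sg (N := 2) (M := 2) (co P.1) (co P.2) k) t)
        (rename Sum.inl ((Fin.cons (L9_f2 a b a' b' α β) (fun k : Fin 9 => L9_f1 α β * X k) :
          Fin (9 + 1) → MvPolynomial (Fin (8 + 1)) K) j)) = 0) ↔
        aeval (fun k => c * sg (N := 2) (M := 2) (co P.1) (co P.2) k) (L9_f2 a b a' b' α β) = 0 ∧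
        ∀ k : Fin 9, aeval (fun k => c * sg (N := 2) (M := 2) (co P.1) (co P.2) k) (L9_f1 α β * X k) = 0 := by
      rw [Fin.forall_fin_succ]
      simp only [Fin.cons_zero, Fin.cons_succ, aeval_rename, Sum.elim_comp_inl]
    rw [key, L9_v2]
    have hm : ∀ k : Fin 9, aeval (fun k => c * sg (N := 2) (M := 2) (co P.1) (co P.2) k) (L9_f1 α β * X k) =
        (c * (co P.1 2 * co P.2 0 - algebraMap K L α * (co P.1 0 * co P.2 2)
          - algebraMap K L β * (co P.1 2 * co P.2 2))) *
          aeval (fun k => c * sg (N := 2) (M := 2) (co P.1) (co P.2) k) (X k : MvPolynomial (Fin (8 + 1)) K) := by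
      intro k
      rw [map_mul, L9_v1]
    obtain ⟨v, v'⟩ := P
    dsimp only at *
    unfold Rel
    dsimp only
    by_cases hv : v = 0
    · subst hv
      have e0 : co (0 : EP a b L) 0 = 0 := by rw [co_zero]; rfl
      have e1 : co (0 : EP a b L) 1 = 1 := by rw [co_zero]; rfl
      have e2 : co (0 : EP a b L) 2 = 0 := by rw [co_zero]; rfl
      by_cases hv' : v' = 0
      · subst hv'
        have e0' : co (0 : EP a' b' L) 0 = 0 := by rw [co_zero]; rfl
        have e1' : co (0 : EP a' b' L) 1 = 1 := by rw [co_zero]; rfl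
        have e2' : co (0 : EP a' b' L) 2 = 0 := by rw [co_zero]; rfl
        refine ⟨fun _ => Or.inl ⟨rfl, rfl⟩, fun _ => ⟨?_, fun k => ?_⟩⟩
        · rw [e0, e1, e2, e1', e2']
          ring
        · rw [hm k, e0, e2, e0', e2']
          ring
      · have e2' : co v' 2 = 1 := co_two hv'
        refine ⟨fun h => ?_, fun h => ?_⟩
        · exfalso
          have h1 := h.1
          rw [e0, e1, e2, e2'] at h1
          have h2 : c ^ 2 * algebraMap K L α ^ 3 = 0 := by linear_combination -h1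
          rcases mul_eq_zero.1 h2 with h3 | h3
          · exact hc2 h3
          · exact hα' (pow_eq_zero_iff (three_ne_zero)|>.1 h3)
        · exfalso
          rcases h with h | h
          · exact hv' h.2
          · exact h.1 rfl
    · have e2 : co v 2 = 1 := co_two hv
      by_cases hv' : v' = 0
      · subst hv'
        have e0' : co (0 : EP a' b' L) 0 = 0 := by rw [co_zero]; rfl
        have e1' : co (0 : EP a' b' L) 1 = 1 := by rw [co_zero]; rfl
        have e2' : co (0 : EP a' b' L) 2 = 0 := by rw [co_zero]; rfl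
        refine ⟨fun h => ?_, fun h => ?_⟩
        · exfalso
          have h1 := h.1
          rw [e2, e1', e2'] at h1
          apply hc2
          linear_combination h1
        · exfalso
          rcases h with h | h
          · exact hv h.1
          · exact h.2.1 rfl
      · have e2' : co v' 2 = 1 := co_two hv'
        have q := co_eqn hv
        have q' := co_eqn hv'
        refine ⟨fun h => Or.inr ⟨hv, hv', ?_⟩, fun h => ?_⟩
        · have h1 := h.2 (pe 2 2 (2, 2))
          rw [hm] at h1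
          have h2 : aeval (fun k => c * sg (N := 2) (M := 2) (co v) (co v') k)
              (X (pe 2 2 (2, 2)) : MvPolynomial (Fin (8 + 1)) K) = c * (co v 2 * co v' 2) :=
            L9_val (K := K) (co v) (co v') c 2 2
          rw [h2, e2, e2'] at h1
          have h3 : c ^ 2 * (co v' 0 - (algebraMap K L α * co v 0 + algebraMap K L β)) = 0 := by
            linear_combination h1
          exact sub_eq_zero.1 ((mul_eq_zero.1 h3).resolve_left hc2)
        · rcases h with h | h
          · exact absurd h.1 hv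
          · have hx := h.2.2
            refine ⟨?_, fun k => ?_⟩
            · rw [hx] at q'
              rw [e2, e2']
              have : (1 * co v' 1) ^ 2 - algebraMap K L α ^ 3 * (co v 1 * 1) ^ 2 =
                  co v' 1 ^ 2 - algebraMap K L α ^ 3 * co v 1 ^ 2 := by ring
              rw [this, q, q']
              ring
            · rw [hm k, e2, e2', hx]
              ring

end MPFA
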