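import Pool.Agent.Lib.MP_10e784_agFA.L8
import Pool.Agent.Lib.MP_10e784_agFA.L9
import Pool.Agent.Lib.MP_10e784_agFA.L10
import Pool.Agent.Lib.MP_17a322_ntEA.Two

/-!
Leaf L11: Faltings's theorem for the curves `y² = F(x)`, `y'² = F'(α x + β)` of genus 2.

PROOF. `exists_two` gives an `E : EE a b a' b'`; let `f` be the forms of `forms`. Suppose that the set `S` is infinite. For
`x ∈ S` choose `y` with `y² = F(x)`, `y'` with `y'² = F'(α x + β)` (`IsSquare` means `= y * y`), points `v`, `v'` by `exists_pt`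
(with `L = K`, `algebraMap K K = id`), `P_x = E.e K (v, v')`. `x ↦ P_x` is injective (`co v 0 = x`) and `Rel α β (v, v')`, so the set of
the `P : E.A.Pts K` with all `f j` zero at `E.A.x P` is infinite (`E.rep`, `forms` with the constant `c` of `E.rep`). By
`faltings` there are `B`, `hB`, `P`, `n` with `Tr hB P _ (f j)` for all `j`, that is (`Tr`: for all `L`, `b` the form vanishes at
`E.A.x (E.A.img (Algebra.ofId K L) P + hB.inc L b)`), by `E.rep` and `forms` again, `hR` of `no_translate`. So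
`β = 0 ∧ a' = α² a ∧ b' = α³ b`, a contradiction.
-/

universe u

namespace MPFA

open Pool.Agent.Lib.MP_17a322_nt.VA Pool.Agent.Lib.MP_17a322_nt.EA

theorem finite_genus_two {K : Type u} [Field K] [NumberField K] {a b a' b' α β : K} (hΔ : (crv a b).Δ ≠ 0)
    (hΔ' : (crv a' b').Δ ≠ 0) (hα : α ≠ 0) (H : ¬(β = 0 ∧ a' = α ^ 2 * a ∧ b' = α ^ 3 * b)) :
    {x : K | IsSquare (x ^ 3 + a * x + b) ∧
      IsSquare ((α * x + β) ^ 3 + a' * (α * x + β) + b')}.Finite := by
  classical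
  obtain ⟨A, e, he⟩ := exists_two hΔ hΔ'
  obtain ⟨E, hE⟩ : ∃ E : EE a b a' b', E = ⟨A, e, he⟩ := ⟨_, rfl⟩
  obtain ⟨m, f, hf, hv⟩ := forms a b a' b' α β hα
  by_contra hfin
  have hpt : ∀ x : K, x ∈ {x : K | IsSquare (x ^ 3 + a * x + b) ∧
      IsSquare ((α * x + β) ^ 3 + a' * (α * x + β) + b')} →
      ∃ P : EP a b K × EP a' b' K, co P.1 0 = x ∧ Rel α β P := by
    rintro x ⟨⟨y, hy⟩, ⟨y', hy'⟩⟩
    obtain ⟨v, hv0, hvx, -⟩ := exists_pt (L := K) (x := x) (y := y) hΔ (by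
      rw [Algebra.algebraMap_self, RingHom.id_apply, RingHom.id_apply, hy]
      ring)
    obtain ⟨v', hv0', hvx', -⟩ := exists_pt (L := K) (x := α * x + β) (y := y') hΔ' (by
      rw [Algebra.algebraMap_self, RingHom.id_apply, RingHom.id_apply, hy']
      ring)
    refine ⟨(v, v'), hvx, Or.inr ⟨hv0, hv0', ?_⟩⟩
    show co v' 0 = algebraMap K K α * co v 0 + algebraMap K K β
    rw [hvx', hvx, Algebra.algebraMap_self, RingHom.id_apply, RingHom.id_apply]
  choose! Q hQ1 hQ2 using hpt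
  have hset : {P : E.A.Pts K | ∀ j, MvPolynomial.aeval
      (Sum.elim (E.A.x P) fun _ => (1 : K)) (f j) = 0}.Infinite := by
    refine Set.Infinite.mono ?_ (Set.Infinite.image (f := fun x => E.e K (Q x)) ?_ hfin)
    · rintro _ ⟨x, hx, rfl⟩ j
      obtain ⟨c, hc0, hc⟩ := E.rep K (Q x)
      have h1 := (hv K (Q x) c (fun _ => 1) hc0).2 (hQ2 x hx) j
      rw [← funext hc] at h1
      exact h1
    · intro x hx y hy hxy
      have h1 : Q x = Q y := (E.e K).injective hxy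
      rw [← hQ1 x hx, h1, hQ1 y hy]
  obtain ⟨B, hB, P, ⟨n, hn0, hn⟩, hTr⟩ := faltings E.A f hf hset
  refine H (no_translate E hB hΔ hα hn0 hn P fun L _ _ b₀ => ?_)
  obtain ⟨R, hR⟩ : ∃ R, R = (E.e L).symm (E.A.img (Algebra.ofId K L) P + hB.inc L b₀) := ⟨_, rfl⟩
  have h1 : E.e L R = E.A.img (Algebra.ofId K L) P + hB.inc L b₀ := by
    rw [hR, AddEquiv.apply_symm_apply]
  rw [← hR]
  obtain ⟨c, hc0, hc⟩ := E.rep L R
  refine (hv L R c (fun _ => algebraMap K L 1) hc0).1 fun j => ?_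
  have h2 := hTr j L b₀
  rw [← h1, funext hc] at h2
  exact h2

end MPFA
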