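import Pool.Agent.Lib.MP_10e784_agFA.L11

/-!
Leaf L12: two products of four linear factors.

PROOF of `cubic`: let `F(X) = c (X - e₁) (X - e₂) (X - e₃)`, `c ≠ 0`. `F(X)` is a square iff `c² F(X) = ∏ (c X - c e_i)` is
one; with `s = c (e₁ + e₂ + e₃) / 3` and `Y = c X - s` this is `∏ (Y - (c e_i - s)) = Y³ + a Y + b` (the sum of the
`c e_i - s` is `0`), with `Δ ≠ 0` because the roots are distinct (`4 a³ + 27 b² = -∏_{i<j} (r_i - r_j)²`, `ring`).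
In the same way for `c'`, `e₁, e₂, e₄`: `Y' = c' X - s'`, so `Y' = α Y + β` with `α = c' / c`, `β = c' s / c - s'`. If
`β = 0 ∧ a' = α² a ∧ b' = α³ b` then `Y'³ + a' Y' + b' = α³ (Y³ + a Y + b)` identically, so the roots correspond:
`X = e₃` is a root of the second one, but `e₃ ∉ {e₁, e₂, e₄}`. So `finite_genus_two` applies, and `X ↦ Y = c X - s` is
injective.

PROOF of `quartic`: apply `cubic` to `X = 1 / (x - θ 0)`, for `x ≠ θ 0` (one value can be omitted): `x - θ i =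
(1 + (θ 0 - θ i) X) / X`, so `∏_{i = 0, 1, 2, 3} (x - θ i) = X⁻⁴ (1 + (θ 0 - θ 1) X) (1 + (θ 0 - θ 2) X) (1 + (θ 0 - θ 3) X)` is a
square iff the product of the last three factors is, and `1 + (θ 0 - θ i) X = (θ 0 - θ i) (X - e_i)`,
`e_i = 1 / (θ i - θ 0)`, distinct for `i = 1, 2, 3, 4`. `x ↦ X` is injective.
-/

universe u

namespace MPFA

private theorem L12_disc {K : Type u} [Field K] [NumberField K] {r₁ r₂ r₃ : K} (hs : r₁ + r₂ + r₃ = 0)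
    (h12 : r₁ ≠ r₂) (h13 : r₁ ≠ r₃) (h23 : r₂ ≠ r₃) :
    (Pool.Agent.Lib.MP_17a322_nt.EA.crv (r₁ * r₂ + r₁ * r₃ + r₂ * r₃) (-(r₁ * r₂ * r₃))).Δ ≠ 0 := by
  have h3 : r₃ = -r₁ - r₂ := by linear_combination hs
  have h1 : (Pool.Agent.Lib.MP_17a322_nt.EA.crv (r₁ * r₂ + r₁ * r₃ + r₂ * r₃) (-(r₁ * r₂ * r₃))).Δ =
      16 * ((r₁ - r₂) * (r₁ - r₃) * (r₂ - r₃)) ^ 2 := by
    unfold Pool.Agent.Lib.MP_17a322_nt.EA.crv WeierstrassCurve.Δ WeierstrassCurve.b₂ WeierstrassCurve.b₄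
      WeierstrassCurve.b₆ WeierstrassCurve.b₈
    simp only
    rw [h3]
    ring
  rw [h1]
  refine mul_ne_zero (by norm_num) (pow_ne_zero _ ?_)
  exact mul_ne_zero (mul_ne_zero (sub_ne_zero.2 h12) (sub_ne_zero.2 h13)) (sub_ne_zero.2 h23)

theorem cubic {K : Type u} [Field K] [NumberField K] {c c' e₁ e₂ e₃ e₄ : K} (hc : c ≠ 0) (hc' : c' ≠ 0)
    (h12 : e₁ ≠ e₂) (h13 : e₁ ≠ e₃) (h23 : e₂ ≠ e₃) (h14 : e₁ ≠ e₄) (h24 : e₂ ≠ e₄) (h34 : e₃ ≠ e₄) :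
    {x : K | IsSquare (c * ((x - e₁) * (x - e₂) * (x - e₃))) ∧
      IsSquare (c' * ((x - e₁) * (x - e₂) * (x - e₄)))}.Finite := by
  obtain ⟨s, hs⟩ : ∃ s, s = c * (e₁ + e₂ + e₃) / 3 := ⟨_, rfl⟩
  obtain ⟨s', hs'⟩ : ∃ s', s' = c' * (e₁ + e₂ + e₄) / 3 := ⟨_, rfl⟩
  have h3 : (3 : K) ≠ 0 := by norm_num
  have hsum : (c * e₁ - s) + (c * e₂ - s) + (c * e₃ - s) = 0 := by
    rw [hs]
    field_simp
    ring
  have hsum' : (c' * e₁ - s') + (c' * e₂ - s') + (c' * e₄ - s') = 0 := by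
    rw [hs']
    field_simp
    ring
  have hne : ∀ {d t x y : K}, d ≠ 0 → x ≠ y → d * x - t ≠ d * y - t := by
    intro d t x y hd hxy h
    apply hxy
    have h1 : d * x = d * y := by linear_combination h
    exact mul_left_cancel₀ hd h1
  have hΔ := L12_disc hsum (hne hc h12) (hne hc h13) (hne hc h23)
  have hΔ' := L12_disc hsum' (hne hc' h12) (hne hc' h14) (hne hc' h24)
  obtain ⟨α, hα⟩ : ∃ α, α = c' / c := ⟨_, rfl⟩
  obtain ⟨β, hβ⟩ : ∃ β, β = c' * s / c - s' := ⟨_, rfl⟩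
  have hα0 : α ≠ 0 := by
    rw [hα]
    exact div_ne_zero hc' hc
  have hY' : ∀ x : K, α * (c * x - s) + β = c' * x - s' := by
    intro x
    rw [hα, hβ]
    field_simp
    ring
  have hcub : ∀ {r₁ r₂ r₃ : K}, r₁ + r₂ + r₃ = 0 → ∀ Y : K,
      Y ^ 3 + (r₁ * r₂ + r₁ * r₃ + r₂ * r₃) * Y + -(r₁ * r₂ * r₃) = (Y - r₁) * (Y - r₂) * (Y - r₃) := by
    intro r₁ r₂ r₃ h Y
    linear_combination Y ^ 2 * h
  have H := finite_genus_two hΔ hΔ' hα0 (β := β) (by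
    rintro ⟨hb0, ha, hb⟩
    have h1 := hcub hsum (c * e₃ - s)
    have h2 := hcub hsum' (α * (c * e₃ - s) + β)
    rw [ha, hb] at h2
    rw [hb0, add_zero] at h2
    have h4 : (α * (c * e₃ - s)) ^ 3 + α ^ 2 * ((c * e₁ - s) * (c * e₂ - s) + (c * e₁ - s) * (c * e₃ - s) +
        (c * e₂ - s) * (c * e₃ - s)) * (α * (c * e₃ - s)) + α ^ 3 * -((c * e₁ - s) * (c * e₂ - s) * (c * e₃ - s)) = 0 := by
      linear_combination α ^ 3 * h1
    rw [h4] at h2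
    have h5 : α * (c * e₃ - s) = c' * e₃ - s' := by
      have h6 := hY' e₃
      rw [hb0, add_zero] at h6
      exact h6
    rw [h5] at h2
    have h6 : (c' * e₃ - s' - (c' * e₁ - s')) * (c' * e₃ - s' - (c' * e₂ - s')) * (c' * e₃ - s' - (c' * e₄ - s')) ≠ 0 :=
      mul_ne_zero (mul_ne_zero (sub_ne_zero.2 (hne hc' h13.symm)) (sub_ne_zero.2 (hne hc' h23.symm)))
        (sub_ne_zero.2 (hne hc' h34))
    exact h6 h2.symm)
  refine (H.preimage (f := fun x : K => c * x - s) ?_).subset ?_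
  · intro x _ y _ hxy
    have h1 : c * x - s = c * y - s := hxy
    by_contra hcon
    exact hne hc hcon h1
  · rintro x ⟨⟨r, hr⟩, ⟨r', hr'⟩⟩
    refine ⟨⟨c * r, ?_⟩, ⟨c' * r', ?_⟩⟩
    · rw [hcub hsum]
      linear_combination c ^ 2 * hr
    · rw [hcub hsum', hY']
      linear_combination c' ^ 2 * hr'

theorem quartic {K : Type u} [Field K] [NumberField K] {θ : Fin 5 → K} (hθ : Function.Injective θ) :
    {x : K | IsSquare ((x - θ 0) * (x - θ 1) * (x - θ 2) * (x - θ 3)) ∧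
      IsSquare ((x - θ 0) * (x - θ 1) * (x - θ 2) * (x - θ 4))}.Finite := by
  have hd : ∀ {i j : Fin 5}, i ≠ j → θ i - θ j ≠ 0 := fun hij => sub_ne_zero.2 fun h => hij (hθ h)
  have he : ∀ {i j : Fin 5}, i ≠ 0 → j ≠ 0 → i ≠ j → (θ i - θ 0)⁻¹ ≠ (θ j - θ 0)⁻¹ := by
    intro i j _ _ hij h
    have h1 := inv_injective h
    exact hd hij (by linear_combination h1)
  have H := cubic (c := (θ 0 - θ 1) * (θ 0 - θ 2) * (θ 0 - θ 3)) (c' := (θ 0 - θ 1) * (θ 0 - θ 2) * (θ 0 - θ 4))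
    (e₁ := (θ 1 - θ 0)⁻¹) (e₂ := (θ 2 - θ 0)⁻¹) (e₃ := (θ 3 - θ 0)⁻¹) (e₄ := (θ 4 - θ 0)⁻¹)
    (mul_ne_zero (mul_ne_zero (hd (by decide)) (hd (by decide))) (hd (by decide)))
    (mul_ne_zero (mul_ne_zero (hd (by decide)) (hd (by decide))) (hd (by decide)))
    (he (by decide) (by decide) (by decide)) (he (by decide) (by decide) (by decide))
    (he (by decide) (by decide) (by decide)) (he (by decide) (by decide) (by decide))
    (he (by decide) (by decide) (by decide)) (he (by decide) (by decide) (by decide))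
  have hf : Function.Injective fun x : K => (x - θ 0)⁻¹ := by
    intro x y hxy
    have h1 := inv_injective hxy
    linear_combination h1
  have hfac : ∀ {i : Fin 5} {x : K}, i ≠ 0 → x - θ 0 ≠ 0 → (θ 0 - θ i) * ((x - θ 0)⁻¹ - (θ i - θ 0)⁻¹) = (x - θ i) / (x - θ 0) := by
    intro i x hi hx
    have h1 : θ i - θ 0 ≠ 0 := hd hi
    field_simp
    ring
  refine ((H.preimage (f := fun x : K => (x - θ 0)⁻¹) hf.injOn).union (Set.finite_singleton (θ 0))).subset ?_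
  rintro x ⟨⟨r, hr⟩, ⟨r', hr'⟩⟩
  by_cases hx0 : x = θ 0
  · exact Or.inr hx0
  · left
    have hx : x - θ 0 ≠ 0 := sub_ne_zero.2 hx0
    refine ⟨⟨r / (x - θ 0) ^ 2, ?_⟩, ⟨r' / (x - θ 0) ^ 2, ?_⟩⟩
    · have h1 : (θ 0 - θ 1) * (θ 0 - θ 2) * (θ 0 - θ 3) * (((x - θ 0)⁻¹ - (θ 1 - θ 0)⁻¹) *
          ((x - θ 0)⁻¹ - (θ 2 - θ 0)⁻¹) * ((x - θ 0)⁻¹ - (θ 3 - θ 0)⁻¹)) =
          ((θ 0 - θ 1) * ((x - θ 0)⁻¹ - (θ 1 - θ 0)⁻¹)) * ((θ 0 - θ 2) * ((x - θ 0)⁻¹ - (θ 2 - θ 0)⁻¹)) *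
            ((θ 0 - θ 3) * ((x - θ 0)⁻¹ - (θ 3 - θ 0)⁻¹)) := by ring
      rw [h1, hfac (by decide) hx, hfac (by decide) hx, hfac (by decide) hx]
      have h2 : r / (x - θ 0) ^ 2 * (r / (x - θ 0) ^ 2) = r * r / ((x - θ 0) ^ 2 * (x - θ 0) ^ 2) := by
        rw [div_mul_div_comm]
      rw [h2, ← hr]
      field_simp
    · have h1 : (θ 0 - θ 1) * (θ 0 - θ 2) * (θ 0 - θ 4) * (((x - θ 0)⁻¹ - (θ 1 - θ 0)⁻¹) *
          ((x - θ 0)⁻¹ - (θ 2 - θ 0)⁻¹) * ((x - θ 0)⁻¹ - (θ 4 - θ 0)⁻¹)) =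
          ((θ 0 - θ 1) * ((x - θ 0)⁻¹ - (θ 1 - θ 0)⁻¹)) * ((θ 0 - θ 2) * ((x - θ 0)⁻¹ - (θ 2 - θ 0)⁻¹)) *
            ((θ 0 - θ 4) * ((x - θ 0)⁻¹ - (θ 4 - θ 0)⁻¹)) := by ring
      rw [h1, hfac (by decide) hx, hfac (by decide) hx, hfac (by decide) hx]
      have h2 : r' / (x - θ 0) ^ 2 * (r' / (x - θ 0) ^ 2) = r' * r' / ((x - θ 0) ^ 2 * (x - θ 0) ^ 2) := by
        rw [div_mul_div_comm]
      rw [h2, ← hr']
      field_simp

end MPFA
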