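import Pool.Agent.Lib.MP_10e784_agFA.L12

/-!
Leaf L13: the exceptional twists are finite in number.

PROOF of `finite_x`: let `M = f.SplittingField` (a number field: `FiniteDimensional`, `CharZero`), in which `f` has
`deg f ≥ 5` distinct roots (`f` is squarefree, so separable over `ℚ`; `Polynomial.card_rootSet_eq_natDegree`), choose an
injective `θ : Fin 5 → M` with values in the roots. If `f ∣ C u (C x - X) - h²`, `u ∈ ℚ`, evaluation at the root `θ i` gives
`u (x - θ i) = h (θ i)²` in `M`. So the products of four of these are `u⁴ ∏ (x - θ i) = (∏ h (θ i))²`, and `u ≠ 0`, so `∏ (x - θ i)` is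
a square for the indices `0, 1, 2, 3` and `0, 1, 2, 4`. By `quartic` the image of `x` in `M` is in a finite set, and `ℚ → M` is
injective.

PROOF of `finite_D`: each `D` of the set comes with an `x` of the finite set of `finite_x` (`u = lc(f) D ≠ 0` because `D` is
squarefree), and `D y² = f(x)`. If `f(x) ≠ 0` then the squarefree integer `D` is determined by `x`: `D y² = D' y'²` with
`y, y' ≠ 0` gives that `D D'` is a rational square, so an integer square, and squarefree `D`, `D'` with `D D'` a square are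
equal (same sign, same prime divisors). `f(x) ≠ 0` by the hypothesis that `f` has no rational root. So the map from the
set of the `D` to the finite set of the `x` (choose one for each `D`) is injective.
-/

namespace MPFA

open Polynomial

private theorem L13_eval {M : Type} [Field M] [Algebra ℚ M] {f : ℚ[X]} {x u : ℚ} {h : ℚ[X]}
    (hd : f ∣ C u * (C x - X) - h ^ 2) {t : M} (ht : aeval t f = 0) :
    algebraMap ℚ M u * (algebraMap ℚ M x - t) = (aeval t h) ^ 2 := by
  obtain ⟨g, hg⟩ := hd
  have h1 : aeval t (C u * (C x - X) - h ^ 2) = 0 := by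
    rw [hg, map_mul, ht, zero_mul]
  simp only [map_sub, map_mul, map_pow, aeval_C, aeval_X] at h1
  exact sub_eq_zero.mp h1

private theorem L13_four {M : Type} [Field M] {v a b c d p q r s : M} (hv : v ≠ 0) (h1 : v * a = p ^ 2)
    (h2 : v * b = q ^ 2) (h3 : v * c = r ^ 2) (h4 : v * d = s ^ 2) : IsSquare (a * b * c * d) := by
  refine ⟨p * q * r * s / v ^ 2, ?_⟩
  have h5 : (p * q * r * s / v ^ 2) * (p * q * r * s / v ^ 2) = (p ^ 2 * q ^ 2 * r ^ 2 * s ^ 2) / v ^ 4 := by
    field_simp
  rw [h5, ← h1, ← h2, ← h3, ← h4]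
  field_simp

theorem finite_x (f : ℚ[X]) (hf : Squarefree f) (h5 : 5 ≤ f.natDegree) :
    {x : ℚ | ∃ u : ℚ, u ≠ 0 ∧ ∃ h : ℚ[X], f ∣ C u * (C x - X) - h ^ 2}.Finite := by
  classical
  have hsep : f.Separable := PerfectField.separable_iff_squarefree.mpr hf
  have : CharZero f.SplittingField := algebraRat.charZero _
  have : FiniteDimensional ℚ f.SplittingField := inferInstance
  have : NumberField f.SplittingField := ⟨⟩
  have hcard : Fintype.card (f.rootSet f.SplittingField) = f.natDegree :=
    card_rootSet_eq_natDegree hsep (SplittingField.splits f)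
  have hle : Fintype.card (Fin 5) ≤ Fintype.card (f.rootSet f.SplittingField) := by
    rw [hcard, Fintype.card_fin]
    exact h5
  obtain ⟨e⟩ := Function.Embedding.nonempty_of_card_le hle
  have hroot : ∀ i, aeval (e i : f.SplittingField) f = 0 := fun i => by
    have h1 := (e i).2
    rw [mem_rootSet] at h1
    exact h1.2
  have hinj : Function.Injective (fun i => (e i : f.SplittingField)) :=
    Subtype.val_injective.comp e.injective
  have hfin := quartic hinj
  refine (hfin.preimage (f := algebraMap ℚ f.SplittingField)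
    (Set.injOn_of_injective (algebraMap ℚ f.SplittingField).injective)).subset ?_
  rintro x ⟨u, hu, h, hd⟩
  have hu' : algebraMap ℚ f.SplittingField u ≠ 0 := by
    rw [Ne, map_eq_zero]
    exact hu
  exact ⟨L13_four hu' (L13_eval hd (hroot 0)) (L13_eval hd (hroot 1)) (L13_eval hd (hroot 2))
      (L13_eval hd (hroot 3)),
    L13_four hu' (L13_eval hd (hroot 0)) (L13_eval hd (hroot 1)) (L13_eval hd (hroot 2))
      (L13_eval hd (hroot 4))⟩

private theorem L13_sqf {D D' k : ℤ} (hD : Squarefree D) (hD' : Squarefree D') (h : D * D' = k * k) : D = D' := by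
  have h1 : D ∣ k ^ 2 := ⟨D', by rw [h, pow_two]⟩
  have h2 : D ∣ k := (hD.dvd_pow_iff_dvd two_ne_zero).mp h1
  obtain ⟨m, rfl⟩ := h2
  have h3 : D' = D * (m * m) := by
    have h4 : D * D' = D * (D * (m * m)) := by rw [h]; ring
    exact mul_left_cancel₀ hD.ne_zero h4
  have h5 : IsUnit m := hD' m ⟨D, by rw [h3]; ring⟩
  have h6 : m * m = 1 := Int.isUnit_mul_self h5
  rw [h3, h6, mul_one]

private theorem L13_sub {c : ℚ} (hc : c ≠ 0) :
    {D : ℤ | Squarefree D ∧ ∃ y : ℚ, (D : ℚ) * y ^ 2 = c}.Subsingleton := by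
  rintro D ⟨hD, y, hy⟩ D' ⟨hD', y', hy'⟩
  have hy0 : y ≠ 0 := by
    rintro rfl
    exact hc (by rw [← hy]; ring)
  have hy0' : y' ≠ 0 := by
    rintro rfl
    exact hc (by rw [← hy']; ring)
  have hs : IsSquare (((D * D' : ℤ) : ℚ)) := by
    refine ⟨c / (y * y'), ?_⟩
    have e1 : (D : ℚ) = c / y ^ 2 := by
      rw [← hy]; field_simp
    have e2 : (D' : ℚ) = c / y' ^ 2 := by
      rw [← hy']; field_simp
    push_cast
    rw [e1, e2]
    field_simp
  rw [Rat.isSquare_intCast_iff] at hs
  obtain ⟨k, hk⟩ := hs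
  exact L13_sqf hD hD' hk

theorem finite_D (f : ℚ[X]) (hf : Squarefree f) (h5 : 5 ≤ f.natDegree) (hroot : ∀ x : ℚ, f.eval x ≠ 0) :
    {D : ℤ | Squarefree D ∧ ∃ x y : ℚ, (D : ℚ) * y ^ 2 = f.eval x ∧
      ∃ h : ℚ[X], f ∣ C (f.leadingCoeff * D) * (C x - X) - h ^ 2}.Finite := by
  refine ((finite_x f hf h5).biUnion (t := fun x => {D : ℤ | Squarefree D ∧ ∃ y : ℚ, (D : ℚ) * y ^ 2 = f.eval x})
    (fun x _ => (L13_sub (hroot x)).finite)).subset ?_
  rintro D ⟨hD, x, y, hy, h, hd⟩
  rw [Set.mem_iUnion₂]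
  refine ⟨x, ⟨f.leadingCoeff * D, ?_, h, hd⟩, hD, y, hy⟩
  refine mul_ne_zero ?_ ?_
  · rw [Ne, leadingCoeff_eq_zero]
    exact hf.ne_zero
  · exact_mod_cast hD.ne_zero

end MPFA
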