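import Pool.Agent.Lib.MP_10e784_agFA.L1
import Pool.Agent.Lib.MP_17a322_nt.VA.Z5

/-!
Leaf L2: the algebraic points are a subgroup.

PROOF of `alg_descend`: let `F = algebraicClosure K L` (an intermediate field, `mem_algebraicClosure_iff`). The ratios
`rt (E.A.x (E.e L P)) (i, j)` are quotients of products of coordinates of `P.1` and `P.2`, so they are in `F`; by `Z_descend`
there is `P₀ : E.A.Pts F` with `E.A.Img F.val P₀ (E.e L P)`, that is `IsImg`, so `E.A.img F.val P₀ = E.e L P` by
`AV.img_eq_iff` (`AV.Img` and `IsImg` are the same up to unfolding `AV.x`).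

PROOF of `alg_of_img`: `P₀ = E.e F Q`, and `co P.1 i = F.val (co Q.1 i)` by `img_fst` (`P = (E.e L).symm (E.e L P)`);
the values of `F.val` are algebraic over `K`.

PROOF of `alg_add`, `alg_sub`: descend both points, use `AV.img_add`, `AV.img_sub`, the additivity of `E.e`, and
`alg_of_img`.

PROOF of `tdeg_alg`: the field `K (ratios)` is contained in `F` (`IntermediateField.adjoin_le_iff`), so it is algebraic over
`K` and its transcendence degree is `0` (`Algebra.trdeg_eq_zero` or the like, for `Algebra.IsAlgebraic`).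
-/

universe u

namespace MPFA

open Pool.Agent.Lib.MP_17a322_nt.VA Pool.Agent.Lib.MP_17a322_nt.EA

section

variable {K : Type u} [Field K] {a b a' b' : K} (E : EE a b a' b')

/-- the ratios of the coordinates are algebraic -/
private theorem L2_rt {L : Type u} [Field L] [Algebra K L] {P : EP a b L × EP a' b' L} (h : Alg P.1) (h' : Alg P.2)
    (i : Fin (8 + 1) × Fin (8 + 1)) : rt (E.A.x (E.e L P)) i ∈ algebraicClosure K L := by
  obtain ⟨c, hc, hx⟩ := E.rep L P
  have hs : ∀ k, sg (N := 2) (M := 2) (co P.1) (co P.2) k ∈ algebraicClosure K L := by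
    intro k
    unfold sg
    exact mul_mem (mem_algebraicClosure_iff.2 (h _)) (mem_algebraicClosure_iff.2 (h' _))
  unfold rt
  rw [hx, hx, mul_div_mul_left _ _ hc]
  exact div_mem (hs _) (hs _)

/-- the homomorphism of groups given by a homomorphism of fields -/
private theorem L2_map {F L : Type u} [Field F] [Algebra K F] [Field L] [Algebra K L] (f : F →ₐ[K] L) :
    ∃ m : EP a b F →+ EP a b L, (∀ v i, co (m v) i = f (co v i)) ∧
      ∀ v : EP a b L, (∀ i, ∃ c, f c = co v i) → ∃ w, m w = v := by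
  classical
  refine ⟨WeierstrassCurve.Affine.Point.map (W' := crv a b) f, ?_, ?_⟩
  · rintro (_ | ⟨x, y, h⟩) i
    · fin_cases i
      · exact (map_zero f).symm
      · exact (map_one f).symm
      · exact (map_zero f).symm
    · fin_cases i
      · rfl
      · rfl
      · exact (map_one f).symm
  · rintro (_ | ⟨x, y, h⟩) hv
    · exact ⟨0, rfl⟩
    · obtain ⟨x', hx⟩ := hv 0
      obtain ⟨y', hy⟩ := hv 1
      have hx' : f x' = x := hx
      have hy' : f y' = y := hy
      subst hx'
      subst hy'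
      exact ⟨.some x' y' ((WeierstrassCurve.Affine.baseChange_nonsingular (crv a b) f.injective x' y').1 h), rfl⟩

/-- algebraic points come from the algebraic closure -/
private theorem L2_lift {L : Type u} [Field L] [Algebra K L] :
    ∃ m : EP a b (algebraicClosure K L) →+ EP a b L, ∀ v, Alg v ↔ ∃ w, m w = v := by
  obtain ⟨m, hm, hm'⟩ := L2_map (a := a) (b := b) (algebraicClosure K L).val
  refine ⟨m, fun v => ⟨fun h => hm' v fun i => ⟨⟨co v i, mem_algebraicClosure_iff.2 (h i)⟩, rfl⟩, ?_⟩⟩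
  rintro ⟨w, rfl⟩ i
  rw [hm w i]
  exact mem_algebraicClosure_iff.1 (co w i).2

private theorem L2_add {L : Type u} [Field L] [Algebra K L] {v w : EP a b L} (h : Alg v) (h' : Alg w) :
    Alg (v + w) ∧ Alg (v - w) := by
  obtain ⟨m, hm⟩ := L2_lift (K := K) (a := a) (b := b) (L := L)
  obtain ⟨v, rfl⟩ := (hm v).1 h
  obtain ⟨w, rfl⟩ := (hm w).1 h'
  exact ⟨(hm _).2 ⟨v + w, map_add m v w⟩, (hm _).2 ⟨v - w, map_sub m v w⟩⟩

theorem alg_descend {L : Type u} [Field L] [Algebra K L] {P : EP a b L × EP a' b' L} (h : Alg P.1) (h' : Alg P.2) :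
    ∃ P₀ : E.A.Pts (algebraicClosure K L), E.A.img (algebraicClosure K L).val P₀ = E.e L P := by
  obtain ⟨P₀, h1⟩ := Z_descend E.A (algebraicClosure K L) (E.e L P) (L2_rt E h h')
  exact ⟨P₀, (AV.img_eq_iff (algebraicClosure K L).val).2 h1⟩

theorem alg_of_img {L : Type u} [Field L] [Algebra K L] {P : EP a b L × EP a' b' L}
    (h : ∃ P₀ : E.A.Pts (algebraicClosure K L), E.A.img (algebraicClosure K L).val P₀ = E.e L P) :
    Alg P.1 ∧ Alg P.2 := by
  obtain ⟨P₀, hP⟩ := h
  have h1 : E.e (algebraicClosure K L) ((E.e (algebraicClosure K L)).symm P₀) = P₀ := AddEquiv.apply_symm_apply _ _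
  have h2 : (E.e L).symm (E.A.img (algebraicClosure K L).val
      (E.e (algebraicClosure K L) ((E.e (algebraicClosure K L)).symm P₀))) = P := by
    rw [h1, hP, AddEquiv.symm_apply_apply]
  refine ⟨fun i => ?_, fun i => ?_⟩
  · have h3 := img_fst E (algebraicClosure K L).val ((E.e (algebraicClosure K L)).symm P₀) i
    rw [h2] at h3
    rw [h3]
    exact mem_algebraicClosure_iff.1 (co ((E.e (algebraicClosure K L)).symm P₀).1 i).2
  · have h3 := img_snd E (algebraicClosure K L).val ((E.e (algebraicClosure K L)).symm P₀) i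
    rw [h2] at h3
    rw [h3]
    exact mem_algebraicClosure_iff.1 (co ((E.e (algebraicClosure K L)).symm P₀).2 i).2

theorem alg_add {L : Type u} [Field L] [Algebra K L] {P Q : EP a b L × EP a' b' L} (h : Alg P.1 ∧ Alg P.2)
    (h' : Alg Q.1 ∧ Alg Q.2) : Alg (P + Q).1 ∧ Alg (P + Q).2 :=
  ⟨(L2_add h.1 h'.1).1, (L2_add h.2 h'.2).1⟩

theorem alg_sub {L : Type u} [Field L] [Algebra K L] {P Q : EP a b L × EP a' b' L} (h : Alg P.1 ∧ Alg P.2)
    (h' : Alg Q.1 ∧ Alg Q.2) : Alg (P - Q).1 ∧ Alg (P - Q).2 :=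
  ⟨(L2_add h.1 h'.1).2, (L2_add h.2 h'.2).2⟩

theorem tdeg_alg {L : Type u} [Field L] [Algebra K L] {P : EP a b L × EP a' b' L} (h : Alg P.1 ∧ Alg P.2) :
    tdeg K (E.A.x (E.e L P)) = 0 := by
  have h1 : Algebra.IsAlgebraic K (IntermediateField.adjoin K
      (Set.range fun p : Fin (8 + 1) × Fin (8 + 1) => E.A.x (E.e L P) p.1 / E.A.x (E.e L P) p.2)) := by
    refine IntermediateField.isAlgebraic_adjoin ?_
    rintro _ ⟨p, rfl⟩
    exact (mem_algebraicClosure_iff.1 (L2_rt E h.1 h.2 p)).isIntegral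
  unfold tdeg
  exact trdeg_eq_zero_iff.2 h1

end

end MPFA
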