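import Pool.Agent.Lib.MP_10e784_agFA.L2
import Pool.Agent.Lib.MP_17a322_nt.VA.ZDefs

/-!
Leaf L3: the first component of a generic point of `B` is generic.

PROOF. Let `c = (E.e L).symm (hB.inc L b) = (c₁, c₂)` and `q = (E.e L).symm (E.A.img (Algebra.ofId K L) P)`; `q` has
coordinates in `K` (`img_fst`, `img_snd` with `φ = Algebra.ofId K L` and the point `(E.e K).symm P`), so `Alg q.1`, `Alg q.2`.
Suppose that `c₁ = 0` or that `co c₁ 0` is algebraic. Then `Alg c₁`: if `c₁ = 0` the coordinates are `0, 1, 0`, otherwise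
`co c₁ 2 = 1` and `co c₁ 1 ^ 2` is algebraic by `co_eqn`. So `(c₁, 0)` and `q` are algebraic, and so is
`v := (q + (c₁, 0)).1 = (q + c).1` (`alg_add`). By `hR`, `Rel α β (q + c)` (`E.e L` is additive). In the first case of `Rel`
the point `v' = (q + c).2` is `0`; in the second case `co v' 0 = α * co v 0 + β` is algebraic, so is `co v' 1` by
`co_eqn`, and `co v' 2 = 1`. So `Alg v'` in both cases, and `c = (q + c) - q` is algebraic (`alg_sub`), so the
transcendence degree of `E.A.x (E.e L c) = E.A.x (hB.inc L b) = B.x b` (`IsSubAV.x_inc`) is `0` by `tdeg_alg`,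
a contradiction. (`Transcendental K x` is the negation of `IsAlgebraic K x`.)
-/

universe u

namespace MPFA

open Pool.Agent.Lib.MP_17a322_nt.VA Pool.Agent.Lib.MP_17a322_nt.EA

private theorem L3_zero {K : Type u} [Field K] {a b : K} {L : Type u} [Field L] [Algebra K L] :
    Alg (0 : EP a b L) := by
  intro i
  rw [co_zero]
  fin_cases i
  · exact isAlgebraic_zero
  · exact isAlgebraic_one
  · exact isAlgebraic_zero

private theorem L3_alg {K : Type u} [Field K] {a b : K} {L : Type u} [Field L] [Algebra K L] {v : EP a b L}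
    (hv : v ≠ 0) (h : IsAlgebraic K (co v 0)) : Alg v := by
  intro i
  fin_cases i
  · exact h
  · refine IsAlgebraic.of_pow two_pos ?_
    show IsAlgebraic K (co v 1 ^ 2)
    rw [co_eqn hv]
    exact ((h.pow 3).add ((isAlgebraic_algebraMap a).mul h)).add (isAlgebraic_algebraMap b)
  · show IsAlgebraic K (co v 2)
    rw [co_two hv]
    exact isAlgebraic_one

theorem generic {K : Type u} [Field K] {a b a' b' : K} (E : EE a b a' b') {α β : K} {B : AV K 8}
    (hB : IsSubAV B E.A) (P : E.A.Pts K)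
    (hR : ∀ (L : Type u) [Field L] [Algebra K L] (b : B.Pts L),
      Rel α β ((E.e L).symm (E.A.img (Algebra.ofId K L) P + hB.inc L b)))
    (L : Type u) [Field L] [Algebra K L] (b : B.Pts L) (hb : tdeg K (B.x b) ≠ 0) :
    ((E.e L).symm (hB.inc L b)).1 ≠ 0 ∧ Transcendental K (co ((E.e L).symm (hB.inc L b)).1 0) := by
  obtain ⟨c, hc⟩ : ∃ c, c = (E.e L).symm (hB.inc L b) := ⟨_, rfl⟩
  obtain ⟨q, hq⟩ : ∃ q, q = (E.e L).symm (E.A.img (Algebra.ofId K L) P) := ⟨_, rfl⟩
  rw [← hc]
  have hqa : Alg q.1 ∧ Alg q.2 := by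
    constructor
    · intro i
      have h1 := img_fst E (Algebra.ofId K L) ((E.e K).symm P) i
      rw [AddEquiv.apply_symm_apply, ← hq] at h1
      rw [h1]
      exact isAlgebraic_algebraMap _
    · intro i
      have h1 := img_snd E (Algebra.ofId K L) ((E.e K).symm P) i
      rw [AddEquiv.apply_symm_apply, ← hq] at h1
      rw [h1]
      exact isAlgebraic_algebraMap _
  by_contra hcon
  have hca : Alg c.1 := by
    by_cases h0 : c.1 = 0
    · rw [h0]
      exact L3_zero
    · refine L3_alg h0 ?_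
      by_contra h1
      exact hcon ⟨h0, h1⟩
  have hv : Alg (q + c).1 := by
    have h9 : Alg (q + (c.1, 0)).1 ∧ Alg (q + (c.1, 0)).2 := by
      first
      | exact alg_add hqa ⟨hca, L3_zero⟩
      | exact alg_add E hqa ⟨hca, L3_zero⟩
    exact h9.1
  have hrel : Rel α β (q + c) := by
    have h1 := hR L b
    rw [map_add, ← hq, ← hc] at h1
    exact h1
  have hv' : Alg (q + c).2 := by
    rcases hrel with ⟨_, h2⟩ | ⟨_, h2, h3⟩
    · rw [h2]
      exact L3_zero
    · refine L3_alg h2 ?_
      rw [h3]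
      exact ((isAlgebraic_algebraMap α).mul (hv 0)).add (isAlgebraic_algebraMap β)
  have hc2 : Alg (q + c - q).1 ∧ Alg (q + c - q).2 := by
    first
    | exact alg_sub ⟨hv, hv'⟩ hqa
    | exact alg_sub E ⟨hv, hv'⟩ hqa
  rw [add_sub_cancel_left] at hc2
  have h4 := tdeg_alg E hc2
  rw [hc, AddEquiv.apply_symm_apply, IsSubAV.x_inc] at h4
  exact hb h4

end MPFA
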