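import Mathlib

/-!
Leaf L4 (Mathlib only): a place at `x = x₀`.

PROOF. Let `R = k[x] ⊂ L` (`Algebra.adjoin k {x}`), isomorphic to the polynomial ring because `x` is transcendental. The ideal
generated by `x - x₀` is the kernel of the homomorphism `R → k`, `x ↦ x₀`, so it is a prime (maximal) ideal `p`. There is a
valuation subring `O` of `L` which dominates the local ring `R_p`: Mathlib has
`LocalSubring.exists_le_valuationSubring`, `LocalSubring.exists_valuationRing_of_isMax`, or
`Ideal.image_subset_nonunits_valuationSubring` (for `A : Subring L` and a proper ideal `I` of `A` there is a valuation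
subring `B ≥ A` with `algebraMap '' I ⊆ B.nonunits`): take `A = R` and `I = (x - x₀)`. So `k ⊂ O`, `x ∈ O` and `x - x₀` is
in the maximal ideal.
-/

universe u

namespace MPFA

theorem place {k L : Type u} [Field k] [Field L] [Algebra k L] {x : L} (hx : Transcendental k x) (x₀ : k) :
    ∃ O : ValuationSubring L, (∀ c : k, algebraMap k L c ∈ O) ∧ x ∈ O ∧ x - algebraMap k L x₀ ∈ O.nonunits := by
  have hxm : x ∈ Algebra.adjoin k ({x} : Set L) := Algebra.subset_adjoin rfl
  have hzm : x - algebraMap k L x₀ ∈ (Algebra.adjoin k ({x} : Set L)).toSubring :=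
    (Algebra.adjoin k ({x} : Set L)).sub_mem hxm ((Algebra.adjoin k ({x} : Set L)).algebraMap_mem x₀)
  have hI : Ideal.span {(⟨x - algebraMap k L x₀, hzm⟩ : (Algebra.adjoin k ({x} : Set L)).toSubring)} ≠ ⊤ := by
    intro h
    have h1 : (1 : (Algebra.adjoin k ({x} : Set L)).toSubring) ∈
        Ideal.span {(⟨x - algebraMap k L x₀, hzm⟩ : (Algebra.adjoin k ({x} : Set L)).toSubring)} := by
      rw [h]; trivial
    obtain ⟨r, hr⟩ := Ideal.mem_span_singleton'.1 h1
    have hr2 : (r : L) * (x - algebraMap k L x₀) = 1 := by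
      have := congrArg Subtype.val hr
      simpa using this
    have hrm : (r : L) ∈ Algebra.adjoin k ({x} : Set L) := r.2
    obtain ⟨r', hr'⟩ : ∃ r' : L, r' = (r : L) := ⟨_, rfl⟩
    rw [← hr'] at hrm hr2
    rw [Algebra.adjoin_singleton_eq_range_aeval] at hrm
    obtain ⟨P, hP⟩ := hrm
    have h0 : Polynomial.aeval x (P * (Polynomial.X - Polynomial.C x₀) - 1) = 0 := by
      rw [map_sub, map_mul, map_sub, Polynomial.aeval_X, Polynomial.aeval_C, map_one, sub_eq_zero]
      have hP2 : Polynomial.aeval x P = r' := hP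
      rw [hP2, hr2]
    have h2 : P * (Polynomial.X - Polynomial.C x₀) - 1 = 0 := by
      by_contra hne
      exact hx ⟨_, hne, h0⟩
    have h3 := congrArg (Polynomial.eval x₀) h2
    simp at h3
  obtain ⟨O, h1, h2⟩ := Ideal.image_subset_nonunits_valuationSubring _ hI
  refine ⟨O, fun c => h1 ((Algebra.adjoin k ({x} : Set L)).algebraMap_mem c), h1 hxm, ?_⟩
  exact h2 ⟨_, Ideal.mem_span_singleton_self _, rfl⟩

/-- Scaling of vectors: a nonzero vector has a multiple with entries in `O` and one entry a unit. PROOF: take an entry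
`u j` of maximal valuation (`O.valuation`, a finite set of values), and multiply by `(u j)⁻¹`; `O.valuation_le_one_iff`. -/
theorem scale {L : Type u} [Field L] (O : ValuationSubring L) {ι : Type} [Finite ι] {u : ι → L} (hu : u ≠ 0) :
    ∃ d : L, d ≠ 0 ∧ (∀ i, d * u i ∈ O) ∧ ∃ j, d * u j = 1 := by
  obtain ⟨i0, hi0⟩ := Function.ne_iff.1 hu
  have : Nonempty ι := ⟨i0⟩
  obtain ⟨j, hj⟩ := Finite.exists_max (fun i => O.valuation (u i))
  have hj0 : u j ≠ 0 := by
    intro h
    have h1 := hj i0
    simp only [h, map_zero, le_zero_iff, map_eq_zero] at h1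
    exact hi0 (by simpa using h1)
  refine ⟨(u j)⁻¹, inv_ne_zero hj0, fun i => ?_, j, inv_mul_cancel₀ hj0⟩
  rw [← O.valuation_le_one_iff, map_mul, map_inv₀]
  have hv : O.valuation (u j) ≠ 0 := (map_ne_zero _).2 hj0
  calc (O.valuation (u j))⁻¹ * O.valuation (u i) ≤ (O.valuation (u j))⁻¹ * O.valuation (u j) :=
        mul_le_mul_right (hj i) _
    _ = 1 := inv_mul_cancel₀ hv

/-- Integrality: if `y² = x³ + A x + B` with `x`, `A`, `B` in `O` then `y ∈ O`. PROOF: `y` is integral over `O` and `O` is
integrally closed, or: if `y ∉ O` then the valuation of `y` is greater than `1` and that of `y²` too. -/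
theorem y_mem {L : Type u} [Field L] (O : ValuationSubring L) {x y A B : L} (hx : x ∈ O) (hA : A ∈ O) (hB : B ∈ O)
    (h : y ^ 2 = x ^ 3 + A * x + B) : y ∈ O := by
  by_contra hy
  have h1 : 1 < O.valuation y := lt_of_not_ge fun h' => hy ((O.valuation_le_one_iff y).1 h')
  have h2 : y ^ 2 ∈ O := by
    rw [h]
    exact O.add_mem _ _ (O.add_mem _ _ (O.toSubring.pow_mem hx 3) (O.mul_mem _ _ hA hx)) hB
  have h3 := (O.valuation_le_one_iff _).2 h2
  rw [map_pow] at h3
  exact absurd h3 (not_le_of_gt (one_lt_pow₀ h1 two_ne_zero))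

end MPFA
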