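import Pool.Agent.Lib.MP_17a322_nt.VA.A3b

/-!
Leaf L5: specialization of the points of an embedded abelian variety.

PROOF. Let `ρ : O → κ` be the residue map, `κ` a `K`-algebra in such a way that `ρ` is compatible (`hκ`). The vector
`y : Fin (N + 1) → O` satisfies all equations of `B` after the injective map to `L` (`hb.isPt`), so it satisfies them in
`O` (an equation has coefficients in `K`; consider `O` as a `K`-algebra by `hK`: `RingHom.codRestrict`, or apply the
evaluation directly: `aeval (fun i => (y i : L)) f = ((eval₂ g y f : O) : L)` with `g : K →+* O`), and then `ρ y` satisfies them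
in `κ`. `ρ (y j) ≠ 0` for the unit `y j`. By `AV.exists_rep` there is a point with this representative.
-/

universe u

namespace MPFA

open Pool.Agent.Lib.MP_17a322_nt.VA

theorem spec {K : Type u} [Field K] {N : ℕ} (B : AV K N) {L : Type u} [Field L] [Algebra K L] (O : ValuationSubring L)
    (g : K →+* O) (hg : ∀ c, ((g c : O) : L) = algebraMap K L c) {κ : Type u} [Field κ] [Algebra K κ] (ρ : O →+* κ)
    (hκ : ∀ c : K, ρ (g c) = algebraMap K κ c) {b : B.Pts L} {y : Fin (N + 1) → O}
    (hb : B.Rep b fun i => (y i : L)) (hy : ∃ j, ρ (y j) ≠ 0) :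
    ∃ b₀ : B.Pts κ, B.Rep b₀ fun i => ρ (y i) := by
  have hpt : B.IsPt fun i => ρ (y i) := by
    intro f hf
    have h1 := hb.isPt f hf
    have h2 : (O.subtype : O →+* L).comp g = algebraMap K L := RingHom.ext hg
    have h3 : ρ.comp g = algebraMap K κ := RingHom.ext hκ
    have h4 : (O.subtype : O →+* L) (MvPolynomial.eval₂ g y f) = 0 := by
      rw [MvPolynomial.eval₂_comp_left, h2]
      exact h1
    have h5 : MvPolynomial.eval₂ g y f = 0 := by
      refine Subtype.ext ?_
      exact h4
    have h6 : ρ (MvPolynomial.eval₂ g y f) = 0 := by rw [h5, map_zero]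
    rw [MvPolynomial.eval₂_comp_left, h3] at h6
    exact h6
  have hne : (fun i => ρ (y i)) ≠ 0 := by
    intro h0
    obtain ⟨j, hj⟩ := hy
    exact hj (congrFun h0 j)
  exact AV.exists_rep (A := B) hne hpt

end MPFA
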