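import Pool.Agent.Lib.MP_10e784_agFA.L3
import Pool.Agent.Lib.MP_10e784_agFA.L4
import Pool.Agent.Lib.MP_10e784_agFA.L5

/-!
Leaf L6: every `x₀` is the first coordinate of the first component of a point of `B`.

PROOF. By `hn` there are a field `L₁` over `K` and `b₁ : B.Pts L₁` with `tdeg K (B.x b₁) = n`, `n > 0`. Let
`L = AlgebraicClosure L₁`, a `K`-algebra, `b = B.img (Algebra.ofId or IsScalarTower.toAlgHom K L₁ L) b₁`; its ratios are the
images of the ratios of `b₁`, so `tdeg K (B.x b) ≠ 0` (by contraposition it is enough that: if `tdeg K (B.x b) = 0` all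
ratios of `b` are algebraic over `K` (they are elements of an algebraic extension), so are those of `b₁`; or use
`IntermediateField.adjoin_map` and an isomorphism `adjoin K S ≃ adjoin K (φ '' S)`: the transcendence degrees are equal).
Let `k = AlgebraicClosure K` and choose a `K`-homomorphism `ι : k → L` (`IsAlgClosed.lift`), which makes `L` a `k`-algebra
with `IsScalarTower K k L`. By `generic` the point `c = (E.e L).symm (hB.inc L b)` has `c.1 ≠ 0` and `x = co c.1 0` is
transcendental over `K`, so over `k` (an element algebraic over `k` is algebraic over `K`: `Algebra.IsAlgebraic.trans`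
or `IsAlgebraic.restrictScalars`/`isAlgebraic_iff..`). Take `O` from `place` for `x₀`, `κ = IsLocalRing.ResidueField O`, `ρ` the residue
map, `κ` a `k`-algebra by `k → O → κ` and a `K`-algebra by `K → k → κ`. By `y_mem`, `y = co c.1 1 ∈ O`. By `scale` there is
`d ≠ 0` with `d * co c.2 j ∈ O` for all `j` and `= 1` for one `j`. So `z k = sg (co c.1) (fun j => d * co c.2 j) k ∈ O` for all
`k`, with `z k = 1 * 1` for `k = pe 2 2 (2, j)` (`co c.1 2 = 1`), and `z` is a representative of `hB.inc L b` in `E.A`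
(`E.rep`), so of `b` in `B` (`IsSubAV.x_inc`: `E.A.x (hB.inc L b) = B.x b`). By `spec` there is `b₀ : B.Pts κ` with the
representative `ρ (z k) = sg (ρ x, ρ y, 1) (ρ (d * co c.2 j)) k`. By `fst_of_rep` the vector `(ρ x, ρ y, 1)` is
`d' * co v i`, `v = ((E.e κ).symm (hB.inc κ b₀)).1`; the third coordinate shows `co v 2 ≠ 0`, so `v ≠ 0` (`co_zero`),
`co v 2 = 1`, `d' = 1` and `co v 0 = ρ x = algebraMap k κ x₀` because `x - x₀` is a nonunit of `O`.
-/

universe u

namespace MPFA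

open Pool.Agent.Lib.MP_17a322_nt.VA Pool.Agent.Lib.MP_17a322_nt.EA

private theorem L6_tdeg {K : Type u} [Field K] {N : ℕ} {B : AV K N} {L₁ L : Type u} [Field L₁]
    [Algebra K L₁] [Field L] [Algebra K L] (φ : L₁ →ₐ[K] L) (b₁ : B.Pts L₁) :
    tdeg K (B.x (B.img φ b₁)) = tdeg K (B.x b₁) := by
  obtain ⟨c, hc, h1'⟩ := B.img_rep φ b₁
  have h1 : ∀ i, φ (B.x b₁ i) = c * B.x (B.img φ b₁) i := h1'
  have h2 : (Set.range fun p : Fin (N + 1) × Fin (N + 1) =>
      B.x (B.img φ b₁) p.1 / B.x (B.img φ b₁) p.2) =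
      φ '' (Set.range fun p : Fin (N + 1) × Fin (N + 1) => B.x b₁ p.1 / B.x b₁ p.2) := by
    rw [← Set.range_comp]
    refine congrArg Set.range (funext fun p => ?_)
    show B.x (B.img φ b₁) p.1 / B.x (B.img φ b₁) p.2 = φ (B.x b₁ p.1 / B.x b₁ p.2)
    rw [map_div₀, h1, h1, mul_div_mul_left _ _ hc]
  unfold tdeg
  rw [h2, ← IntermediateField.adjoin_map]
  exact (IntermediateField.equivMap _ φ).trdeg_eq.symm

private theorem L6_co_ne {K : Type u} [Field K] {a b : K} {L : Type u} [Field L] [Algebra K L]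
    (v : EP a b L) : co v ≠ 0 := by
  intro h
  by_cases hv : v = 0
  · have h1 := congrFun h 1
    rw [hv, co_zero] at h1
    exact one_ne_zero h1
  · have h1 := congrFun h 2
    rw [co_two hv] at h1
    exact one_ne_zero h1

private theorem L6_res {L : Type u} [Field L] (O : ValuationSubring L) :
    ∃ (κ : Type u) (_ : Field κ) (ρ : O →+* κ), ∀ z : O, (z : L) ∈ O.nonunits → ρ z = 0 :=
  ⟨IsLocalRing.ResidueField O, inferInstance, IsLocalRing.residue O, fun z hz =>
    (IsLocalRing.residue_eq_zero_iff z).2 (ValuationSubring.coe_mem_nonunits_iff.1 hz)⟩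

theorem surj {K : Type u} [Field K] {a b a' b' : K} (E : EE a b a' b') {α β : K} {B : AV K 8}
    (hB : IsSubAV B E.A) {n : ℕ} (hn0 : 0 < n) (hn : B.dimIs n) (P : E.A.Pts K)
    (hR : ∀ (L : Type u) [Field L] [Algebra K L] (b : B.Pts L),
      Rel α β ((E.e L).symm (E.A.img (Algebra.ofId K L) P + hB.inc L b)))
    (x₀ : AlgebraicClosure K) :
    ∃ (κ : Type u) (_ : Field κ) (_ : Algebra K κ) (_ : Algebra (AlgebraicClosure K) κ)
      (_ : IsScalarTower K (AlgebraicClosure K) κ) (b : B.Pts κ),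
      ((E.e κ).symm (hB.inc κ b)).1 ≠ 0 ∧
        co ((E.e κ).symm (hB.inc κ b)).1 0 = algebraMap (AlgebraicClosure K) κ x₀ := by
  classical
  obtain ⟨L₁, _, _, b₁, hb₁⟩ := hn.2
  -- a generic point over an algebraically closed field
  obtain ⟨L, _, _, hL, q, hq⟩ : ∃ (L : Type u) (_ : Field L) (_ : Algebra K L) (_ : IsAlgClosed L)
      (q : B.Pts L), tdeg K (B.x q) ≠ 0 := by
    refine ⟨AlgebraicClosure L₁, inferInstance, inferInstance, inferInstance,
      B.img (IsScalarTower.toAlgHom K L₁ (AlgebraicClosure L₁)) b₁, ?_⟩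
    rw [L6_tdeg, hb₁]
    exact_mod_cast hn0.ne'
  obtain ⟨hc1, hx⟩ := generic E hB P hR L q hq
  obtain ⟨c, hc⟩ : ∃ c, c = (E.e L).symm (hB.inc L q) := ⟨_, rfl⟩
  rw [← hc] at hc1 hx
  have hec : E.e L c = hB.inc L q := by rw [hc, AddEquiv.apply_symm_apply]
  -- the algebraic closure of `K` in `L`
  obtain ⟨ι⟩ : Nonempty (AlgebraicClosure K →ₐ[K] L) := ⟨IsAlgClosed.lift⟩
  let : Algebra (AlgebraicClosure K) L := ι.toRingHom.toAlgebra
  have : IsScalarTower K (AlgebraicClosure K) L :=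
    IsScalarTower.of_algebraMap_eq fun r => (ι.commutes r).symm
  have hxk : Transcendental (AlgebraicClosure K) (co c.1 0) := fun h => hx (h.restrictScalars K)
  obtain ⟨O, hO1, hO2, hO3⟩ := place hxk x₀
  obtain ⟨κ, _, ρ, hρ⟩ := L6_res O
  obtain ⟨gk, hgk⟩ : ∃ gk : AlgebraicClosure K →+* O,
      ∀ r, ((gk r : O) : L) = algebraMap (AlgebraicClosure K) L r :=
    ⟨(algebraMap (AlgebraicClosure K) L).codRestrict O.toSubring hO1, fun r => rfl⟩
  let : Algebra (AlgebraicClosure K) κ := (ρ.comp gk).toAlgebra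
  let : Algebra K κ := ((ρ.comp gk).comp (algebraMap K (AlgebraicClosure K))).toAlgebra
  have hT : IsScalarTower K (AlgebraicClosure K) κ := IsScalarTower.of_algebraMap_eq fun r => rfl
  have hKO : ∀ r : K, algebraMap K L r ∈ O := fun r => by
    rw [IsScalarTower.algebraMap_apply K (AlgebraicClosure K) L]
    exact hO1 _
  have hy : co c.1 1 ∈ O := y_mem O hO2 (hKO a) (hKO b) (co_eqn hc1)
  have hcO : ∀ i, co c.1 i ∈ O := by
    intro i
    fin_cases i
    · exact hO2
    · exact hy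
    · show co c.1 2 ∈ O
      rw [co_two hc1]
      exact O.one_mem
  obtain ⟨d, hd, hdO, j, hj⟩ := scale O (L6_co_ne c.2)
  obtain ⟨xO, hxO⟩ : ∃ xO : Fin (2 + 1) → O, ∀ i, (xO i : L) = co c.1 i :=
    ⟨fun i => ⟨_, hcO i⟩, fun i => rfl⟩
  obtain ⟨yO, hyO⟩ : ∃ yO : Fin (2 + 1) → O, ∀ i, (yO i : L) = d * co c.2 i :=
    ⟨fun i => ⟨_, hdO i⟩, fun i => rfl⟩
  have hx2 : xO 2 = 1 := Subtype.ext (by rw [hxO, co_two hc1]; rfl)
  have hyj : yO j = 1 := Subtype.ext (by rw [hyO, hj]; rfl)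
  obtain ⟨c', hc', hrep⟩ := E.rep L c
  have hb' : B.Rep q fun k => ((sg (N := 2) (M := 2) xO yO k : O) : L) := by
    refine ⟨d * c'⁻¹, mul_ne_zero hd (inv_ne_zero hc'), fun k => ?_⟩
    have h1 := hrep k
    rw [hec, hB.x_inc] at h1
    have h2 : ((sg (N := 2) (M := 2) xO yO k : O) : L) =
        d * sg (N := 2) (M := 2) (co c.1) (co c.2) k := by
      show ((xO _ * yO _ : O) : L) = d * (co c.1 _ * co c.2 _)
      rw [MulMemClass.coe_mul, hxO, hyO]
      ring
    refine h2.trans ?_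
    rw [h1, mul_assoc, inv_mul_cancel_left₀ hc']
  have hys : ∃ k, ρ (sg (N := 2) (M := 2) xO yO k) ≠ 0 := by
    refine ⟨pe 2 2 (2, j), ?_⟩
    have h1 : sg (N := 2) (M := 2) xO yO (pe 2 2 (2, j)) = 1 := by
      unfold sg
      rw [Equiv.symm_apply_apply]
      show xO 2 * yO j = 1
      rw [hx2, hyj, mul_one]
    rw [h1, map_one]
    exact one_ne_zero
  obtain ⟨b₀, hb₀⟩ := spec B O (gk.comp (algebraMap K (AlgebraicClosure K)))
    (fun r => by
      rw [RingHom.comp_apply, hgk, ← IsScalarTower.algebraMap_apply]) ρ (fun r => rfl) hb' hys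
  have hA : E.A.Rep (hB.inc κ b₀) fun k =>
      sg (N := 2) (M := 2) (fun i => ρ (xO i)) (fun i => ρ (yO i)) k := by
    obtain ⟨e, he, h1⟩ := hb₀
    refine ⟨e, he, fun k => ?_⟩
    rw [hB.x_inc, ← h1]
    exact (map_mul ρ _ _).symm
  obtain ⟨d', hd', h2⟩ := fst_of_rep E hA
  have h3 := h2 2
  have h4 : d' * co ((E.e κ).symm (hB.inc κ b₀)).1 2 = 1 := by
    rw [← h3]
    show ρ (xO 2) = 1
    rw [hx2, map_one]
  have hv : ((E.e κ).symm (hB.inc κ b₀)).1 ≠ 0 := by
    intro h0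
    rw [h0, co_zero] at h4
    exact zero_ne_one ((mul_zero d').symm.trans h4)
  rw [co_two hv, mul_one] at h4
  refine ⟨κ, inferInstance, inferInstance, inferInstance, hT, b₀, hv, ?_⟩
  have h5 := h2 0
  rw [h4, one_mul] at h5
  rw [← h5]
  show ρ (xO 0) = ρ (gk x₀)
  have h6 : ρ (xO 0 - gk x₀) = 0 := hρ _ (by
    rw [AddSubgroupClass.coe_sub, hxO, hgk]
    exact hO3)
  rw [map_sub, sub_eq_zero] at h6
  exact h6

end MPFA
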