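import Pool.Agent.Lib.MP_10e784_agFA.L6

/-!
Leaf L7: the translate is `B` itself.

PROOF of `descend`: `E.A.x P` (coordinates in `K`) is mapped to a representative of `E.A.img (Algebra.ofId K κ) P`
(`AV.img_rep`), which is the point `hB.inc κ b` with `E.A.x (hB.inc κ b) = B.x b`. So the images of the coordinates of `P`
satisfy the equations of `B` (`AV.IsPt.smul`, `AV.Rep.isPt` applied to `B.Rep b`), so do the coordinates in `K`
(`AV.IsPt.of_injective` for `Algebra.ofId K κ`), and by `AV.exists_rep` there is `b₀ : B.Pts K` with this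
representative; `hB.inc K b₀ = P` by `AV.Rep.unique`.

PROOF of `in_B`: let `q = (E.e K).symm P`. If `q.1 = 0`: `hR K 0` gives `Rel α β q` (`E.A.img (Algebra.ofId K K) P = P`,
`AV.img_id`), so `q.2 = 0` and `P = 0 = hB.inc K 0`. If `q.1 ≠ 0` take `κ`, `b` from `surj` for `x₀ = algebraMap (co q.1 0)`
and let `c = (E.e κ).symm (hB.inc κ b)`, `qκ = (E.e κ).symm (E.A.img _ P)`, `qκ.1 ≠ 0`, `co qκ.1 0 = algebraMap K κ (co q.1 0)`
(`img_fst`; `co qκ.1 2 = 1`). By `eq_or_neg` `c.1 = qκ.1` or `c.1 = -qκ.1`; replacing `b` by `-b` we may assume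
`c.1 = -qκ.1`. `hR κ b`: `Rel α β (qκ + c)` with first component `0`, so the second one is `0` (the other case has first
component `≠ 0`), so `qκ + c = 0`, `E.A.img _ P = hB.inc κ (-b)`; use `descend`.

PROOF of `rel_B`: with `b₀` from `in_B` and `b₀' = B.img (Algebra.ofId K L) b₀`, `hB.inc L b₀' = E.A.img _ P`
(`Z_inc_img` and `AV.img_eq_iff`); apply `hR` to `c - b₀'`.
-/

universe u

namespace MPFA

open Pool.Agent.Lib.MP_17a322_nt.VA Pool.Agent.Lib.MP_17a322_nt.EA

section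

variable {K : Type u} [Field K] {a b a' b' : K} (E : EE a b a' b') {α β : K} {B : AV K 8} (hB : IsSubAV B E.A)

theorem descend (P : E.A.Pts K) {κ : Type u} [Field κ] [Algebra K κ] {b : B.Pts κ}
    (h : E.A.img (Algebra.ofId K κ) P = hB.inc κ b) : ∃ b₀ : B.Pts K, P = hB.inc K b₀ := by
  have h1 : E.A.Rep (E.A.img (Algebra.ofId K κ) P) fun i => Algebra.ofId K κ (E.A.x P i) :=
    E.A.img_rep (Algebra.ofId K κ) P
  rw [h] at h1
  have h2 : B.Rep b fun i => Algebra.ofId K κ (E.A.x P i) := h1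
  have h3 : B.IsPt (E.A.x P) := AV.IsPt.of_injective (Algebra.ofId K κ) (Algebra.ofId K κ).injective h2.isPt
  obtain ⟨b₀, hb₀⟩ := AV.exists_rep (A := B) (E.A.x_ne P) h3
  have h4 : E.A.Rep (hB.inc K b₀) (E.A.x P) := hb₀
  exact ⟨b₀, (AV.Rep.self P).unique h4⟩

private theorem L7_img_self (P : E.A.Pts K) : E.A.img (Algebra.ofId K K) P = P :=
  E.A.img_id P

private theorem L7_ne {a b : K} {L : Type u} [Field L] [Algebra K L] {v : EP a b L} (h : co v 2 = 1) : v ≠ 0 := by
  intro h0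
  rw [h0, co_zero] at h
  exact zero_ne_one h

private theorem L7_step (P : E.A.Pts K) {κ : Type u} [Field κ] [Algebra K κ] {b : B.Pts κ}
    (hR : Rel α β ((E.e κ).symm (E.A.img (Algebra.ofId K κ) P + hB.inc κ b)))
    (h : ((E.e κ).symm (E.A.img (Algebra.ofId K κ) P)).1 + ((E.e κ).symm (hB.inc κ b)).1 = 0) :
    ∃ b₀ : B.Pts K, P = hB.inc K b₀ := by
  have h1 : ((E.e κ).symm (E.A.img (Algebra.ofId K κ) P + hB.inc κ b)).1 = 0 := by
    rw [map_add, Prod.fst_add, h]
  have h2 : (E.e κ).symm (E.A.img (Algebra.ofId K κ) P + hB.inc κ b) = 0 := by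
    rcases hR with hR | hR
    · exact Prod.ext hR.1 hR.2
    · exact absurd h1 hR.1
  have h3 : E.A.img (Algebra.ofId K κ) P + hB.inc κ b = 0 := by
    apply (E.e κ).symm.injective
    rw [h2, map_zero]
  have h4 : E.A.img (Algebra.ofId K κ) P = hB.inc κ (-b) := by
    rw [map_neg]
    exact eq_neg_of_add_eq_zero_left h3
  exact descend E hB P h4

theorem in_B {n : ℕ} (hn0 : 0 < n) (hn : B.dimIs n) (P : E.A.Pts K)
    (hR : ∀ (L : Type u) [Field L] [Algebra K L] (b : B.Pts L),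
      Rel α β ((E.e L).symm (E.A.img (Algebra.ofId K L) P + hB.inc L b))) :
    ∃ b₀ : B.Pts K, P = hB.inc K b₀ := by
  obtain ⟨q, hq⟩ : ∃ q, q = (E.e K).symm P := ⟨_, rfl⟩
  have hqP : E.e K q = P := by
    rw [hq, AddEquiv.apply_symm_apply]
  by_cases h0 : q.1 = 0
  · have h1 := hR K 0
    rw [L7_img_self, map_zero, add_zero, ← hq] at h1
    have h2 : q = 0 := by
      rcases h1 with h1 | h1
      · exact Prod.ext h1.1 h1.2
      · exact absurd h0 h1.1
    refine ⟨0, ?_⟩
    rw [map_zero, ← hqP, h2, map_zero]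
  · obtain ⟨κ, _, _, _, _, b, hb1, hb2⟩ := surj E hB hn0 hn P hR (algebraMap K (AlgebraicClosure K) (co q.1 0))
    rw [← IsScalarTower.algebraMap_apply K (AlgebraicClosure K) κ] at hb2
    have h1 : ∀ i, co ((E.e κ).symm (E.A.img (Algebra.ofId K κ) P)).1 i = Algebra.ofId K κ (co q.1 i) := by
      intro i
      have h2 := img_fst E (Algebra.ofId K κ) q i
      rw [hqP] at h2
      exact h2
    have h2 : ((E.e κ).symm (E.A.img (Algebra.ofId K κ) P)).1 ≠ 0 := by
      refine L7_ne ?_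
      rw [h1, co_two h0, map_one]
    have h3 : co ((E.e κ).symm (hB.inc κ b)).1 0 = co ((E.e κ).symm (E.A.img (Algebra.ofId K κ) P)).1 0 := by
      rw [hb2, h1]
      rfl
    rcases eq_or_neg hb1 h2 h3 with h4 | h4
    · refine L7_step E hB P (hR κ (-b)) ?_
      rw [h4, map_neg, map_neg, Prod.fst_neg, add_neg_cancel]
    · refine L7_step E hB P (hR κ b) ?_
      rw [h4, neg_add_cancel]

theorem rel_B {n : ℕ} (hn0 : 0 < n) (hn : B.dimIs n) (P : E.A.Pts K)
    (hR : ∀ (L : Type u) [Field L] [Algebra K L] (b : B.Pts L),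
      Rel α β ((E.e L).symm (E.A.img (Algebra.ofId K L) P + hB.inc L b)))
    (L : Type u) [Field L] [Algebra K L] (c : B.Pts L) : Rel α β ((E.e L).symm (hB.inc L c)) := by
  obtain ⟨b₀, hb₀⟩ := in_B E hB hn0 hn P hR
  have h1 : E.A.img (Algebra.ofId K L) P = hB.inc L (B.img (Algebra.ofId K L) b₀) := by
    rw [AV.img_eq_iff, hb₀]
    exact B.img_rep (Algebra.ofId K L) b₀
  have h2 := hR L (c - B.img (Algebra.ofId K L) b₀)
  rw [h1, ← map_add, add_sub_cancel] at h2
  exact h2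

end

end MPFA
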