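import Pool.Agent.Lib.MP_10e784_agFA.L7

/-!
Leaf L8: a translate of positive dimension of an abelian subvariety is not contained in the curve `Rel`, unless the branch
points correspond.

PROOF of `root_map`: let `F(e) = e³ + a e + b = 0`. Take `κ`, `c : B.Pts κ` from `surj` for `x₀ = e`, and
`w = (E.e κ).symm (hB.inc κ c)`: `w.1 ≠ 0`, `co w.1 0 = e`, so `co w.1 1 = 0` by `co_eqn`, `w.1 + w.1 = 0` by `two`. By `rel_B`
`Rel α β w` and `Rel α β (w + w)` (`= (E.e κ).symm (hB.inc κ (c + c))`). The second one has first component `0`, so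
`w.2 + w.2 = 0`. The first one gives `w.2 ≠ 0` and `co w.2 0 = α e + β`; `co w.2 1 = 0` by `two`, and `co_eqn` gives
`F'(α e + β) = 0` in `κ`, so in `AlgebraicClosure K` (`algebraMap` is injective).

PROOF of `no_translate`: `F = X³ + a X + b` has three distinct roots `e₁, e₂, e₃` in `AlgebraicClosure K`: it splits, and
`Δ = -16 (4 a³ + 27 b²) ≠ 0` means that it is separable (no common root with `3 X² + a`). `F'(α X + β) - α³ F(X) =
3 α² β X² + (3 α β² + α a' - α³ a) X + (β³ + a' β + b' - α³ b)` vanishes at `e₁, e₂, e₃`, so it is zero (degree at most 2). So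
`3 α² β = 0`, `β = 0` (`K` has characteristic `0`), `a' = α² a`, `b' = α³ b`.
-/

universe u

namespace MPFA

open Pool.Agent.Lib.MP_17a322_nt.VA Pool.Agent.Lib.MP_17a322_nt.EA

section

variable {K : Type u} [Field K] [CharZero K] {a b a' b' : K} (E : EE a b a' b') {α β : K} {B : AV K 8}
  (hB : IsSubAV B E.A)

theorem root_map {n : ℕ} (hn0 : 0 < n) (hn : B.dimIs n) (P : E.A.Pts K)
    (hR : ∀ (L : Type u) [Field L] [Algebra K L] (b : B.Pts L),
      Rel α β ((E.e L).symm (E.A.img (Algebra.ofId K L) P + hB.inc L b)))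
    (e : AlgebraicClosure K) (he : e ^ 3 + algebraMap K _ a * e + algebraMap K _ b = 0) :
    (algebraMap K _ α * e + algebraMap K _ β) ^ 3 + algebraMap K _ a' * (algebraMap K _ α * e + algebraMap K _ β) +
      algebraMap K _ b' = 0 := by
  obtain ⟨κ, _, _, _, _, c, hc0, hce⟩ := surj E hB hn0 hn P hR e
  have hchar : CharZero κ := charZero_of_injective_algebraMap (algebraMap K κ).injective
  have h2κ : (2 : κ) ≠ 0 := two_ne_zero
  have hst : ∀ z : K, algebraMap (AlgebraicClosure K) κ (algebraMap K (AlgebraicClosure K) z) = algebraMap K κ z :=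
    fun z => (IsScalarTower.algebraMap_apply K (AlgebraicClosure K) κ z).symm
  have hRw : Rel α β ((E.e κ).symm (hB.inc κ c)) := rel_B E hB hn0 hn P hR κ c
  have hR2 : Rel α β ((E.e κ).symm (hB.inc κ c) + (E.e κ).symm (hB.inc κ c)) := by
    have h := rel_B E hB hn0 hn P hR κ (c + c)
    rwa [map_add, map_add] at h
  have hy : co ((E.e κ).symm (hB.inc κ c)).1 1 = 0 := by
    have h1 := co_eqn hc0
    have h2 := congrArg (algebraMap (AlgebraicClosure K) κ) he
    rw [map_add, map_add, map_mul, map_pow, map_zero, hst, hst] at h2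
    rw [hce, h2] at h1
    exact pow_eq_zero_iff two_ne_zero |>.1 h1
  have hww := (two h2κ hc0).2 hy
  rcases hR2 with ⟨-, h2⟩ | ⟨h1, -⟩
  · rcases hRw with ⟨h0, -⟩ | ⟨-, hw2, hx⟩
    · exact absurd h0 hc0
    · have hy2 := (two h2κ hw2).1 h2
      have h3 := co_eqn hw2
      rw [hy2, hx, hce] at h3
      apply (algebraMap (AlgebraicClosure K) κ).injective
      rw [map_add, map_add, map_mul, map_pow, map_zero, map_add, map_mul, hst, hst, hst, hst]
      rw [← h3]
      ring
  · exact absurd hww h1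

theorem no_translate (hΔ : (crv a b).Δ ≠ 0) (hα : α ≠ 0) {n : ℕ} (hn0 : 0 < n) (hn : B.dimIs n) (P : E.A.Pts K)
    (hR : ∀ (L : Type u) [Field L] [Algebra K L] (b : B.Pts L),
      Rel α β ((E.e L).symm (E.A.img (Algebra.ofId K L) P + hB.inc L b))) :
    β = 0 ∧ a' = α ^ 2 * a ∧ b' = α ^ 3 * b := by
  have hΔ' : 4 * a ^ 3 + 27 * b ^ 2 ≠ 0 := by
    intro h
    apply hΔ
    unfold crv WeierstrassCurve.Δ WeierstrassCurve.b₂ WeierstrassCurve.b₄ WeierstrassCurve.b₆ WeierstrassCurve.b₈
    linear_combination (-16) * h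
  have hchar : CharZero (AlgebraicClosure K) :=
    charZero_of_injective_algebraMap (algebraMap K (AlgebraicClosure K)).injective
  obtain ⟨A, hA⟩ : ∃ A, A = algebraMap K (AlgebraicClosure K) a := ⟨_, rfl⟩
  obtain ⟨B', hB'⟩ : ∃ B', B' = algebraMap K (AlgebraicClosure K) b := ⟨_, rfl⟩
  have hD : 4 * A ^ 3 + 27 * B' ^ 2 ≠ 0 := by
    intro h
    apply hΔ'
    apply (algebraMap K (AlgebraicClosure K)).injective
    rw [map_add, map_mul, map_mul, map_pow, map_pow, map_ofNat, map_ofNat, map_zero, ← hA, ← hB']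
    exact h
  -- the roots
  obtain ⟨e, he⟩ : ∃ e : AlgebraicClosure K, e ^ 3 + A * e + B' = 0 := by
    obtain ⟨e, he⟩ := IsAlgClosed.exists_root
      (Polynomial.X ^ 3 + (Polynomial.C A * Polynomial.X + Polynomial.C B')) (by
        rw [Polynomial.degree_add_eq_left_of_degree_lt]
        · rw [Polynomial.degree_X_pow]
          exact (by norm_num : ((3 : ℕ) : WithBot ℕ) ≠ 0)
        · rw [Polynomial.degree_X_pow]
          exact lt_of_le_of_lt Polynomial.degree_linear_le (by norm_num))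
    refine ⟨e, ?_⟩
    rw [Polynomial.IsRoot.def, Polynomial.eval_add, Polynomial.eval_add, Polynomial.eval_mul, Polynomial.eval_pow,
      Polynomial.eval_X, Polynomial.eval_C, Polynomial.eval_C] at he
    rw [add_assoc]
    exact he
  obtain ⟨t, ht⟩ := IsAlgClosed.exists_pow_nat_eq (-3 * e ^ 2 - 4 * A) (n := 2) (by norm_num)
  have hA4 : 4 * A = -(t ^ 2 + 3 * e ^ 2) := by linear_combination ht
  have hprod : 16 * (4 * A ^ 3 + 27 * B' ^ 2) = -(t ^ 2 * (3 * e - t) ^ 2 * (3 * e + t) ^ 2) := by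
    have hB4 : 4 * B' = e * (t ^ 2 - e ^ 2) := by linear_combination 4 * he - e * hA4
    have h1 : 16 * (4 * A ^ 3 + 27 * B' ^ 2) = (4 * A) ^ 3 + 27 * (4 * B') ^ 2 := by ring
    rw [h1, hA4, hB4]
    ring
  have h16 : 16 * (4 * A ^ 3 + 27 * B' ^ 2) ≠ 0 := mul_ne_zero (by norm_num) hD
  rw [hprod] at h16
  have ht0 : t ≠ 0 := by
    intro h
    apply h16
    rw [h]
    ring
  have hm : 3 * e - t ≠ 0 := by
    intro h
    apply h16
    rw [h]
    ring
  have hp : 3 * e + t ≠ 0 := by
    intro h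
    apply h16
    rw [h]
    ring
  -- the coefficients
  obtain ⟨c2, hc2⟩ : ∃ c, c = 3 * algebraMap K (AlgebraicClosure K) α ^ 2 * algebraMap K _ β := ⟨_, rfl⟩
  obtain ⟨c1, hc1⟩ : ∃ c, c = 3 * algebraMap K (AlgebraicClosure K) α * algebraMap K _ β ^ 2 +
    algebraMap K _ α * algebraMap K _ a' - algebraMap K _ α ^ 3 * A := ⟨_, rfl⟩
  obtain ⟨c0, hc0⟩ : ∃ c, c = algebraMap K (AlgebraicClosure K) β ^ 3 + algebraMap K _ a' * algebraMap K _ β +
    algebraMap K _ b' - algebraMap K _ α ^ 3 * B' := ⟨_, rfl⟩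
  have key : ∀ x : AlgebraicClosure K, x ^ 3 + A * x + B' = 0 → c2 * x ^ 2 + c1 * x + c0 = 0 := by
    intro x hx
    have h1 := root_map E hB hn0 hn P hR x (by rw [← hA, ← hB']; exact hx)
    rw [hc2, hc1, hc0]
    linear_combination h1 - algebraMap K (AlgebraicClosure K) α ^ 3 * hx
  have k1 := key e he
  have k2 := key ((-e + t) / 2) (by
    have h8 : 8 * (((-e + t) / 2) ^ 3 + A * ((-e + t) / 2) + B') = 0 := by
      linear_combination 8 * he + (-3 * e + t) * (hA4)
    exact (mul_eq_zero.1 h8).resolve_left (by norm_num))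
  have k3 := key ((-e - t) / 2) (by
    have h8 : 8 * (((-e - t) / 2) ^ 3 + A * ((-e - t) / 2) + B') = 0 := by
      linear_combination 8 * he + (-3 * e - t) * (hA4)
    exact (mul_eq_zero.1 h8).resolve_left (by norm_num))
  have r1 : c1 = c2 * e := by
    have h : t * (c1 - c2 * e) = 0 := by linear_combination k2 - k3
    exact sub_eq_zero.1 ((mul_eq_zero.1 h).resolve_left ht0)
  have r2 : c2 = 0 := by
    have h : (3 * e - t) * ((3 * e + t) * c2) = 0 := by
      linear_combination 4 * (k1 - k2) + (-2) * (3 * e - t) * r1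
    exact (mul_eq_zero.1 ((mul_eq_zero.1 h).resolve_left hm)).resolve_left hp
  have r3 : c1 = 0 := by rw [r1, r2, zero_mul]
  have r4 : c0 = 0 := by
    rw [r2, r3] at k1
    linear_combination k1
  have hα' : algebraMap K (AlgebraicClosure K) α ≠ 0 := (map_ne_zero _).2 hα
  have hβ0 : β = 0 := by
    have h : 3 * algebraMap K (AlgebraicClosure K) α ^ 2 * algebraMap K _ β = 0 := hc2.symm.trans r2
    have h1 := (mul_eq_zero.1 h).resolve_left (mul_ne_zero (by norm_num) (pow_ne_zero 2 hα'))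
    exact (map_eq_zero _).1 h1
  rw [r3, hβ0, map_zero] at hc1
  rw [r4, hβ0, map_zero] at hc0
  refine ⟨hβ0, ?_, ?_⟩
  · apply (algebraMap K (AlgebraicClosure K)).injective
    rw [map_mul, map_pow, ← hA]
    have h : algebraMap K (AlgebraicClosure K) α * (algebraMap K (AlgebraicClosure K) a' -
        algebraMap K (AlgebraicClosure K) α ^ 2 * A) = 0 := by linear_combination -hc1
    exact sub_eq_zero.1 ((mul_eq_zero.1 h).resolve_left hα')
  · apply (algebraMap K (AlgebraicClosure K)).injective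
    rw [map_mul, map_pow, ← hB']
    linear_combination -hc0

end

end MPFA
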