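import Pool.Agent.Lib.MP_10e784_agFA.L13
import Pool.Agent.Lib.MP_10e784_ag.TW.TWFin
import Pool.Agent.Lib.MP_10e784_ag.TW.TWMain

/-!
All rational points on the quadratic twists of odd degree.
-/

namespace MPFA

open Polynomial Filter

/-- For `f` squarefree of odd degree at least 5 without rational root, almost none of the quadratic twists `D y² = f(x)`
has a rational point other than the point at infinity. -/
theorem odd_all (f : ℚ[X]) (hf : Squarefree f) (hdeg : Odd f.natDegree) (h5 : 5 ≤ f.natDegree)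
    (hroot : ∀ x : ℚ, f.eval x ≠ 0) :
    Tendsto (fun N : ℕ => (Nat.card {D : ℤ // Squarefree D ∧ |D| ≤ (N : ℤ) ∧
      ∃ x y : ℚ, (D : ℚ) * y ^ 2 = f.eval x} : ℝ) / N) atTop (nhds 0) := by
  have h1 := TW.fin_odd (fun _ _ hg a ha => TW.main_TW hg a ha) f hf hdeg h5 hroot
  have hS := finite_D f hf h5 hroot
  obtain ⟨S, hSdef⟩ : ∃ S : Set ℤ, S = {D : ℤ | Squarefree D ∧ ∃ x y : ℚ, (D : ℚ) * y ^ 2 = f.eval x ∧
      ∃ h : ℚ[X], f ∣ C (f.leadingCoeff * D) * (C x - X) - h ^ 2} := ⟨_, rfl⟩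
  rw [← hSdef] at hS
  have h2 : Tendsto (fun N : ℕ => (S.ncard : ℝ) / N) atTop (nhds 0) :=
    tendsto_const_div_atTop_nhds_zero_nat _
  have h3 := h1.add h2
  rw [add_zero] at h3
  refine squeeze_zero (fun N => by positivity) (fun N => ?_) h3
  rw [← add_div]
  refine div_le_div_of_nonneg_right ?_ (Nat.cast_nonneg N)
  have hfin : ∀ P : ℤ → Prop, {D : ℤ | Squarefree D ∧ |D| ≤ (N : ℤ) ∧ P D}.Finite := fun P =>
    (Set.finite_Icc (-(N : ℤ)) N).subset fun D hD => abs_le.1 hD.2.1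
  have e : ∀ P : ℤ → Prop, Nat.card {D : ℤ // Squarefree D ∧ |D| ≤ (N : ℤ) ∧ P D} =
      {D : ℤ | Squarefree D ∧ |D| ≤ (N : ℤ) ∧ P D}.ncard := fun P => rfl
  rw [e, e, ← Nat.cast_add, Nat.cast_le]
  refine (Set.ncard_le_ncard ?_ ((hfin _).union hS)).trans (Set.ncard_union_le _ _)
  rintro D ⟨hD, hN, x, y, hxy⟩
  by_cases h : ∃ h : ℚ[X], f ∣ C (f.leadingCoeff * D) * (C x - X) - h ^ 2
  · right
    rw [hSdef]
    exact ⟨hD, x, y, hxy, h⟩
  · left
    exact ⟨hD, hN, x, y, hxy, h⟩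

end MPFA
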